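import Pool.Agent.Lib.SVT.Defs

/-!
# SVT.Circ: minimal even edge sets

In a graph without cycles of length 4, 5, 6 a minimal nonempty even set `F` of edges inside `W` has
at least 7 elements or is the edge set of a triangle.

Plan.  Let `H = SimpleGraph.fromEdgeSet (F : Set (Sym2 V))` (`F` has no loops because it consists of
edges of `G`).  Every degree of `H` is even and `H` has an edge, so `H` is not acyclic (a finite
forest with an edge has a vertex of degree 1; use what Mathlib has on `IsAcyclic`/`IsTree` and leaves,
or a longest path), so `H` has a cycle `c`.  The edge set `E(c)` is contained in `F`, is even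
(`SimpleGraph.Walk.IsTrail.even_countP_edges_iff`) and nonempty, so it is equal to `F` by
minimality; `F.card = c.length` (`edges` of a cycle are `Nodup`).  `c` is also a cycle of `G`
(`Walk.mapLe`), so its length is 3 or at least 7.  If it is 3, the three vertices of `c` form a
triangle `T` inside `W` and `F` consists of the three edges inside `T`.
-/

set_option autoImplicit false
set_option linter.unusedSectionVars false

namespace Pool.Agent.Lib.SVT

open Finset

variable {V : Type*} [Fintype V] [DecidableEq V] {G : SimpleGraph V} {W : Finset V}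

namespace CircAux

lemma edg_three {G : SimpleGraph V} {a b c : V} (hab : G.Adj a b) (hbc : G.Adj b c)
    (hca : G.Adj c a) : edg G ({a, b, c} : Finset V) = {s(a, b), s(b, c), s(c, a)} := by
  ext e
  induction e using Sym2.ind with
  | _ x y =>
    rw [mem_edg']
    simp only [mem_insert, mem_singleton, Sym2.eq_iff]
    constructor
    · rintro ⟨h, hx, hy⟩
      have hne := h.ne
      rcases hx with rfl | rfl | rfl <;> rcases hy with rfl | rfl | rfl <;> simp_all
    · rintro (h | h | h) <;> rcases h with ⟨rfl, rfl⟩ | ⟨rfl, rfl⟩
      · exact ⟨hab, by simp, by simp⟩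
      · exact ⟨hab.symm, by simp, by simp⟩
      · exact ⟨hbc, by simp, by simp⟩
      · exact ⟨hbc.symm, by simp, by simp⟩
      · exact ⟨hca, by simp, by simp⟩
      · exact ⟨hca.symm, by simp, by simp⟩

/-- an even nonempty loopless edge set contains a cycle -/
lemma exists_cycle {F : Finset (Sym2 V)} (hl : ∀ e ∈ F, ¬ e.IsDiag) (he : Ev F)
    (hne : F.Nonempty) :
    ∃ (v : V) (c : (SimpleGraph.fromEdgeSet (F : Set (Sym2 V))).Walk v v), c.IsCycle := by
  classical
  by_contra hcon
  push Not at hcon
  set H : SimpleGraph V := SimpleGraph.fromEdgeSet (F : Set (Sym2 V)) with hH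
  have hac : H.IsAcyclic := hcon
  obtain ⟨e, heF⟩ := hne
  induction e using Sym2.ind with
  | _ a b =>
    have hab : H.Adj a b := by
      rw [hH, SimpleGraph.fromEdgeSet_adj]
      exact ⟨by exact_mod_cast heF, fun h => hl _ heF (by rw [h]; exact Sym2.mk_isDiag_iff.2 rfl)⟩
    have hbr := SimpleGraph.isAcyclic_iff_forall_adj_isBridge.1 hac hab
    rw [SimpleGraph.isBridge_iff] at hbr
    set K : SimpleGraph V := H.deleteEdges {s(a, b)} with hK
    set C : Finset V := univ.filter (fun x => K.Reachable a x) with hC
    have haC : a ∈ C := by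
      rw [hC, mem_filter]
      exact ⟨mem_univ _, SimpleGraph.Reachable.refl _⟩
    have hbC : b ∉ C := by
      rw [hC, mem_filter]
      exact fun h => hbr h.2
    have h1 : Even (∑ v ∈ C, (F.filter (fun e => v ∈ e)).card) :=
      Finset.even_sum _ fun v _ => he v
    have h2 : ∑ v ∈ C, (F.filter (fun e => v ∈ e)).card =
        ∑ e ∈ F, (C.filter (fun v => v ∈ e)).card := by
      simp only [card_filter]
      exact sum_comm
    rw [h2, ← add_sum_erase F _ heF] at h1
    have h3 : (C.filter (fun v => v ∈ s(a, b))) = {a} := by
      ext x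
      simp only [mem_filter, Sym2.mem_iff, mem_singleton]
      constructor
      · rintro ⟨hx, rfl | rfl⟩
        · rfl
        · exact absurd hx hbC
      · rintro rfl
        exact ⟨haC, Or.inl rfl⟩
    have h4 : Even (∑ e ∈ F.erase s(a, b), (C.filter (fun v => v ∈ e)).card) := by
      refine Finset.even_sum _ fun e he' => ?_
      rw [mem_erase] at he'
      induction e using Sym2.ind with
      | _ x y =>
        have hxy : x ≠ y := fun h => hl _ he'.2 (by rw [h]; exact Sym2.mk_isDiag_iff.2 rfl)
        have hKxy : K.Adj x y := by
          rw [hK, SimpleGraph.deleteEdges_adj, hH, SimpleGraph.fromEdgeSet_adj]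
          exact ⟨⟨by exact_mod_cast he'.2, hxy⟩, by simpa using he'.1⟩
        have hiff : x ∈ C ↔ y ∈ C := by
          rw [hC, mem_filter, mem_filter]
          constructor
          · rintro ⟨_, h⟩
            exact ⟨mem_univ _, h.trans hKxy.reachable⟩
          · rintro ⟨_, h⟩
            exact ⟨mem_univ _, h.trans hKxy.symm.reachable⟩
        by_cases hx : x ∈ C
        · have : (C.filter (fun v => v ∈ s(x, y))) = {x, y} := by
            ext z
            simp only [mem_filter, Sym2.mem_iff, mem_insert, mem_singleton]
            constructor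
            · exact fun h => h.2
            · rintro (rfl | rfl)
              · exact ⟨hx, Or.inl rfl⟩
              · exact ⟨hiff.1 hx, Or.inr rfl⟩
          rw [this, card_pair hxy]
          exact even_two
        · have : (C.filter (fun v => v ∈ s(x, y))) = ∅ := by
            ext z
            simp only [mem_filter, Sym2.mem_iff, notMem_empty, iff_false, not_and, not_or]
            intro hz
            constructor
            · rintro rfl
              exact hx hz
            · rintro rfl
              exact hx (hiff.2 hz)
          rw [this, card_empty]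
          exact Even.zero
    rw [h3, card_singleton] at h1
    have h5 := (Nat.even_add.1 h1).2 h4
    exact absurd h5 (by decide)

end CircAux

theorem card_edg_tri {T : Finset V} (hT : T ∈ tris G W) : (edg G T).card = 3 := by
  obtain ⟨-, hc, hadj⟩ := mem_tris.1 hT
  obtain ⟨a, b, c, hab, hac, hbc, rfl⟩ := card_eq_three.1 hc
  have h1 : G.Adj a b := hadj a (by simp) b (by simp) hab
  have h2 : G.Adj b c := hadj b (by simp) c (by simp) hbc
  have h3 : G.Adj c a := hadj c (by simp) a (by simp) hac.symm
  rw [CircAux.edg_three h1 h2 h3, card_eq_three]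
  refine ⟨_, _, _, ?_, ?_, ?_, rfl⟩
  · intro h
    rcases Sym2.eq_iff.1 h with ⟨h, _⟩ | ⟨h, _⟩
    · exact hab h
    · exact hac h
  · intro h
    rcases Sym2.eq_iff.1 h with ⟨h, _⟩ | ⟨_, h⟩
    · exact hac h
    · exact hbc h
  · intro h
    rcases Sym2.eq_iff.1 h with ⟨h, _⟩ | ⟨h, _⟩
    · exact hbc h
    · exact hab h.symm

theorem circuit (hc : NoCyc G) {F : Finset (Sym2 V)} (hF : F ⊆ edg G W) (he : Ev F)
    (hne : F.Nonempty) (hmin : ∀ F', F' ⊆ F → Ev F' → F'.Nonempty → F' = F) :
    7 ≤ F.card ∨ ∃ T ∈ tris G W, F = edg G T := by
  classical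
  have hl : ∀ e ∈ F, ¬ e.IsDiag := fun e h => G.not_isDiag_of_mem_edgeSet (mem_edg.1 (hF h)).1
  obtain ⟨v, c, hcyc⟩ := CircAux.exists_cycle hl he hne
  have hle : SimpleGraph.fromEdgeSet (F : Set (Sym2 V)) ≤ G := by
    intro x y h
    rw [SimpleGraph.fromEdgeSet_adj] at h
    have := hF (by exact_mod_cast h.1 : s(x, y) ∈ F)
    exact (mem_edg'.1 this).1
  have hsub : c.edges.toFinset ⊆ F := by
    intro e h
    have h1 := c.edges_subset_edgeSet (List.mem_toFinset.1 h)
    rw [SimpleGraph.edgeSet_fromEdgeSet] at h1
    exact_mod_cast h1.1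
  have hnd := hcyc.isTrail.edges_nodup
  have hev : Ev c.edges.toFinset := by
    intro x
    have h1 := (hcyc.isTrail.even_countP_edges_iff x).2 (fun h => absurd rfl h)
    have h2 : (c.edges.toFinset.filter (fun e => x ∈ e)).card =
        c.edges.countP (fun e => x ∈ e) := by
      have h3 : c.edges.toFinset.filter (fun e => x ∈ e) =
          (c.edges.filter (fun e => decide (x ∈ e))).toFinset := by
        ext e
        simp
      rw [h3, List.toFinset_card_of_nodup (hnd.filter _), List.countP_eq_length_filter]
    rw [h2]
    exact h1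
  have h3 := hcyc.three_le_length
  have hne' : c.edges.toFinset.Nonempty := by
    rw [← card_pos, List.toFinset_card_of_nodup hnd, SimpleGraph.Walk.length_edges]
    omega
  have hFc := hmin _ hsub hev hne'
  have hcard : F.card = c.length := by
    have := congrArg Finset.card hFc
    rw [List.toFinset_card_of_nodup hnd, SimpleGraph.Walk.length_edges] at this
    exact this.symm
  have h4 := hc v (c.mapLe hle) (hcyc.mapLe hle)
  have h5 : (c.mapLe hle).length = c.length := by
    simp [SimpleGraph.Walk.mapLe]
  rw [h5] at h4
  rcases Nat.lt_or_ge F.card 7 with h7 | h7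
  swap
  · exact Or.inl h7
  right
  have hlen : c.length = 3 := by omega
  match c, hlen with
  | .cons (v := b) hvb (.cons (v := d) hbd (.cons hdv .nil)), _ =>
    simp only [SimpleGraph.Walk.edges_cons, SimpleGraph.Walk.edges_nil, List.toFinset_cons,
      List.toFinset_nil] at hFc
    have hF' : F = {s(v, b), s(b, d), s(d, v)} := hFc.symm
    have e1 := mem_edg'.1 (hF (by rw [hF']; simp : s(v, b) ∈ F))
    have e2 := mem_edg'.1 (hF (by rw [hF']; simp : s(b, d) ∈ F))
    have e3 := mem_edg'.1 (hF (by rw [hF']; simp : s(d, v) ∈ F))
    refine ⟨{v, b, d}, ?_, ?_⟩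
    · rw [mem_tris]
      refine ⟨?_, ?_, ?_⟩
      · intro x hx
        simp only [mem_insert, mem_singleton] at hx
        rcases hx with rfl | rfl | rfl
        · exact e1.2.1
        · exact e1.2.2
        · exact e2.2.2
      · rw [card_eq_three]
        exact ⟨v, b, d, e1.1.ne, e3.1.ne.symm, e2.1.ne, rfl⟩
      · intro x hx y hy hxy
        simp only [mem_insert, mem_singleton] at hx hy
        rcases hx with rfl | rfl | rfl <;> rcases hy with rfl | rfl | rfl
        · exact absurd rfl hxy
        · exact e1.1
        · exact e3.1.symm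
        · exact e1.1.symm
        · exact absurd rfl hxy
        · exact e2.1
        · exact e3.1
        · exact e2.1.symm
        · exact absurd rfl hxy
    · rw [CircAux.edg_three e1.1 e2.1 e3.1]
      exact hF'

end Pool.Agent.Lib.SVT
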