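import Pool.Agent.Lib.SVT.Defs

/-!
# SVT.Rank: a family with the dual MacLane property has at least `|S| - |W| + 1` members

Plan.  Linear algebra over `ZMod 2`.  Let `Φ : (S → ZMod 2) →ₗ (𝓕 → ZMod 2)`, `Φ c F = ∑ e ∈ F, c e`
(functions on the subtypes `{e // e ∈ S}`, `{F // F ∈ 𝓕}`), and `δ : (W → ZMod 2) →ₗ (S → ZMod 2)`,
`(δ y) s(a,b) = y a + y b`.  By `hdual` the kernel of `Φ` lies in the range of `δ`
(the values of `y` outside `W` do not matter, because all ends of edges of `S` lie in `W`), and the
constant function `1` lies in the kernel of `δ`, so `finrank (range δ) ≤ |W| - 1`.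
`LinearMap.finrank_range_add_finrank_ker` twice.  (No loops: `hS` gives `a ≠ b` for `s(a,b) ∈ S`.)
-/

set_option autoImplicit false
set_option linter.unusedSectionVars false

namespace Pool.Agent.Lib.SVT

open Finset

variable {V : Type*} [Fintype V] [DecidableEq V]

theorem card_le_family {S : Finset (Sym2 V)} {W : Finset V} (hW : W.Nonempty)
    (hS : ∀ a b, s(a, b) ∈ S → a ≠ b ∧ a ∈ W ∧ b ∈ W) {𝓕 : Finset (Finset (Sym2 V))}
    (hF : ∀ F ∈ 𝓕, F ⊆ S)
    (hdual : ∀ c : Sym2 V → ZMod 2, (∀ F ∈ 𝓕, ∑ e ∈ F, c e = 0) →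
      ∃ y : V → ZMod 2, ∀ a b, s(a, b) ∈ S → c s(a, b) = y a + y b) :
    S.card + 1 ≤ W.card + 𝓕.card := by
  classical
  -- the extension by zero
  let ext : ({v // v ∈ W} → ZMod 2) → V → ZMod 2 := fun y a => if h : a ∈ W then y ⟨a, h⟩ else 0
  have hext_add : ∀ y z a, ext (y + z) a = ext y a + ext z a := by
    intro y z a
    by_cases h : a ∈ W <;> simp [ext, h]
  have hext_smul : ∀ (r : ZMod 2) y a, ext (r • y) a = r * ext y a := by
    intro r y a
    by_cases h : a ∈ W <;> simp [ext, h]
  let d : (V → ZMod 2) → Sym2 V → ZMod 2 := fun y =>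
    Sym2.lift ⟨fun a b => y a + y b, fun a b => add_comm _ _⟩
  have hd : ∀ y a b, d y s(a, b) = y a + y b := fun y a b => rfl
  let δ : ({v // v ∈ W} → ZMod 2) →ₗ[ZMod 2] ({e // e ∈ S} → ZMod 2) :=
    { toFun := fun y e => d (ext y) e.1
      map_add' := by
        intro y z
        funext e
        obtain ⟨e, he⟩ := e
        induction e using Sym2.ind with
        | _ a b =>
          simp only [Pi.add_apply, hd, hext_add]
          ring
      map_smul' := by
        intro r y
        funext e
        obtain ⟨e, he⟩ := e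
        induction e using Sym2.ind with
        | _ a b =>
          simp only [Pi.smul_apply, hd, hext_smul, RingHom.id_apply, smul_eq_mul]
          ring }
  let Φ : ({e // e ∈ S} → ZMod 2) →ₗ[ZMod 2] ({F // F ∈ 𝓕} → ZMod 2) :=
    { toFun := fun c F => ∑ e : {e // e ∈ S}, if e.1 ∈ F.1 then c e else 0
      map_add' := by
        intro c c'
        funext F
        simp only [Pi.add_apply]
        rw [← Finset.sum_add_distrib]
        refine Finset.sum_congr rfl fun e _ => ?_
        split_ifs <;> simp
      map_smul' := by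
        intro r c
        funext F
        simp only [Pi.smul_apply, RingHom.id_apply, smul_eq_mul]
        rw [Finset.mul_sum]
        refine Finset.sum_congr rfl fun e _ => ?_
        split_ifs <;> simp }
  have hker : LinearMap.ker Φ ≤ LinearMap.range δ := by
    intro c hc
    rw [LinearMap.mem_ker] at hc
    let c' : Sym2 V → ZMod 2 := fun e => if h : e ∈ S then c ⟨e, h⟩ else 0
    have hc' : ∀ F ∈ 𝓕, ∑ e ∈ F, c' e = 0 := by
      intro F hFm
      have h1 := congrFun hc ⟨F, hFm⟩
      have h2 : (∑ e : {e // e ∈ S}, if e.1 ∈ F then c e else 0) = 0 := h1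
      have h3 : (∑ e : {e // e ∈ S}, if e.1 ∈ F then c e else 0)
          = ∑ e : {e // e ∈ S}, if e.1 ∈ F then c' e.1 else 0 := by
        refine Finset.sum_congr rfl fun e _ => ?_
        have : c' e.1 = c e := by simp [c', e.2]
        rw [this]
      rw [h3] at h2
      rw [Finset.sum_coe_sort S (fun e => if e ∈ F then c' e else 0)] at h2
      rw [← Finset.sum_filter] at h2
      have h4 : S.filter (fun e => e ∈ F) = F := by
        ext e
        simp only [Finset.mem_filter]
        exact ⟨fun h => h.2, fun h => ⟨hF F hFm h, h⟩⟩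
      rwa [h4] at h2
    obtain ⟨y, hy⟩ := hdual c' hc'
    refine ⟨fun v => y v.1, ?_⟩
    funext e
    obtain ⟨e, he⟩ := e
    induction e using Sym2.ind with
    | _ a b =>
      have h1 : c' s(a, b) = c ⟨s(a, b), he⟩ := by simp [c', he]
      have h2 := hS a b he
      have h3 : (δ fun v => y v.1) ⟨s(a, b), he⟩ = ext (fun v => y v.1) a + ext (fun v => y v.1) b :=
        rfl
      rw [h3, ← h1, hy a b he]
      simp [ext, h2.2.1, h2.2.2]
  have hone : (fun _ => 1 : {v // v ∈ W} → ZMod 2) ∈ LinearMap.ker δ := by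
    rw [LinearMap.mem_ker]
    funext e
    obtain ⟨e, he⟩ := e
    induction e using Sym2.ind with
    | _ a b =>
      have h2 := hS a b he
      have h3 : (δ fun _ => 1) ⟨s(a, b), he⟩
          = ext (fun _ => 1) a + ext (fun _ => 1) b := rfl
      rw [h3]
      simp only [ext, h2.2.1, h2.2.2, dif_pos, Pi.zero_apply]
      exact (by decide : (1 : ZMod 2) + 1 = 0)
  have hne : (fun _ => 1 : {v // v ∈ W} → ZMod 2) ≠ 0 := by
    obtain ⟨w, hw⟩ := hW
    intro h
    have := congrFun h ⟨w, hw⟩
    simp at this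
  have hkpos : 1 ≤ Module.finrank (ZMod 2) (LinearMap.ker δ) := by
    have : Nontrivial (LinearMap.ker δ) :=
      ⟨⟨⟨_, hone⟩, 0, fun h => hne (congrArg Subtype.val h)⟩⟩
    exact Module.finrank_pos
  have h1 := LinearMap.finrank_range_add_finrank_ker δ
  have h2 := LinearMap.finrank_range_add_finrank_ker Φ
  have h3 : Module.finrank (ZMod 2) (LinearMap.ker Φ) ≤ Module.finrank (ZMod 2) (LinearMap.range δ) :=
    Submodule.finrank_mono hker
  have h4 : Module.finrank (ZMod 2) (LinearMap.range Φ)
      ≤ Module.finrank (ZMod 2) ({F // F ∈ 𝓕} → ZMod 2) := Submodule.finrank_le _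
  rw [Module.finrank_pi] at h4
  simp only [Module.finrank_pi, Fintype.card_coe] at h1 h2 h4
  omega

end Pool.Agent.Lib.SVT
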