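import Pool.Agent.Lib.SVT.Fam
import Pool.Agent.Lib.SVT.Rank
import Pool.Agent.Lib.SVT.Circ

/-!
# SVT.Count: the sum of the charges is negative

Plan.  `S = edg G W` has MacLane's property (`ML.mono`); take the family `𝓕` of `ML.min_family`;
by `circuit` every member has at least 7 elements or is the edge set of a triangle inside `W`
(3 elements, `card_edg_tri`), and at most `(tris G W).card` members are of the second kind
(the family is a set, the map `T ↦ edg G T` is onto them).  Each edge is covered at most twice: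
`∑ F ∈ 𝓕, F.card ≤ 2 * S.card` (double counting).  So `7 |𝓕| ≤ 2 |S| + 4 |tris|`, and by
`card_le_family` `|S| + 1 ≤ |W| + |𝓕|`; hence `5 |S| + 7 ≤ 7 |W| + 4 |tris|`.
Finally `∑ v ∈ W, (nb G W v).card = 2 |S|` (handshake) and `∑ v ∈ W, (tr G W v).card = 3 |tris|`
(double counting), so `∑ ch = 30 |S| - 24 |tris| - 42 |W| ≤ -42`.
-/

set_option autoImplicit false
set_option linter.unusedSectionVars false

namespace Pool.Agent.Lib.SVT

open Finset

variable {V : Type*} [Fintype V] [DecidableEq V] {G : SimpleGraph V} {W : Finset V}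

/-- the number of neighbours is the number of edges -/
theorem card_nb (G : SimpleGraph V) (W : Finset V) {v : V} (hv : v ∈ W) :
    (nb G W v).card = ((edg G W).filter (fun e => v ∈ e)).card := by
  classical
  refine Finset.card_bij (fun u _ => s(v, u)) ?_ ?_ ?_
  · intro u hu
    rw [mem_nb] at hu
    rw [mem_filter, mem_edg']
    exact ⟨⟨hu.2, hv, hu.1⟩, Sym2.mem_mk_left v u⟩
  · intro u hu u' hu' h
    exact Sym2.congr_right.1 h
  · intro e he
    rw [mem_filter] at he
    obtain ⟨u, rfl⟩ := Sym2.mem_iff_exists.1 he.2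
    have h1 := mem_edg'.1 he.1
    exact ⟨u, mem_nb.2 ⟨h1.2.2, h1.1⟩, rfl⟩

/-- handshake -/
theorem sum_nb (G : SimpleGraph V) (W : Finset V) :
    ∑ v ∈ W, (nb G W v).card = 2 * (edg G W).card := by
  classical
  have h1 : ∑ v ∈ W, (nb G W v).card =
      ∑ v ∈ W, ((edg G W).bipartiteAbove (fun (v : V) (e : Sym2 V) => v ∈ e) v).card :=
    Finset.sum_congr rfl (fun v hv => card_nb G W hv)
  rw [h1, Finset.sum_card_bipartiteAbove_eq_sum_card_bipartiteBelow]
  have h2 : ∀ e ∈ edg G W,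
      (W.bipartiteBelow (fun (v : V) (e : Sym2 V) => v ∈ e) e).card = 2 := by
    intro e he
    induction e with | _ a b
    have h3 := mem_edg'.1 he
    have h4 : W.bipartiteBelow (fun (v : V) (e : Sym2 V) => v ∈ e) s(a, b) = {a, b} := by
      ext x
      rw [Finset.mem_bipartiteBelow, Sym2.mem_iff, mem_insert, mem_singleton]
      constructor
      · exact fun h => h.2
      · rintro (rfl | rfl)
        · exact ⟨h3.2.1, Or.inl rfl⟩
        · exact ⟨h3.2.2, Or.inr rfl⟩
    rw [h4, Finset.card_pair h3.1.ne]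
  rw [Finset.sum_congr rfl h2, Finset.sum_const, smul_eq_mul, mul_comm]

theorem sum_tr (G : SimpleGraph V) (W : Finset V) :
    ∑ v ∈ W, (tr G W v).card = 3 * (tris G W).card := by
  classical
  have h1 : ∑ v ∈ W, (tr G W v).card =
      ∑ v ∈ W, ((tris G W).bipartiteAbove (fun (v : V) (T : Finset V) => v ∈ T) v).card := by
    refine Finset.sum_congr rfl (fun v _ => congrArg Finset.card ?_)
    ext T
    rw [mem_tr, Finset.mem_bipartiteAbove]
  rw [h1, Finset.sum_card_bipartiteAbove_eq_sum_card_bipartiteBelow]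
  have h2 : ∀ T ∈ tris G W,
      (W.bipartiteBelow (fun (v : V) (T : Finset V) => v ∈ T) T).card = 3 := by
    intro T hT
    obtain ⟨h3, h4, _⟩ := mem_tris.1 hT
    have h5 : W.bipartiteBelow (fun (v : V) (T : Finset V) => v ∈ T) T = T := by
      ext x
      rw [Finset.mem_bipartiteBelow]
      exact ⟨fun h => h.2, fun h => ⟨h3 h, h⟩⟩
    rw [h5, h4]
  rw [Finset.sum_congr rfl h2, Finset.sum_const, smul_eq_mul, mul_comm]

/-- each edge is covered at most twice -/
theorem sum_card_le {S : Finset (Sym2 V)} {𝓕 : Finset (Finset (Sym2 V))}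
    (hF : ∀ F ∈ 𝓕, F ⊆ S) (h2 : ∀ e, (𝓕.filter (fun F => e ∈ F)).card ≤ 2) :
    ∑ F ∈ 𝓕, F.card ≤ 2 * S.card := by
  classical
  have h1 : ∑ F ∈ 𝓕, F.card =
      ∑ F ∈ 𝓕, (S.bipartiteBelow (fun (e : Sym2 V) (F : Finset (Sym2 V)) => e ∈ F) F).card := by
    refine Finset.sum_congr rfl (fun F hF' => ?_)
    congr 1
    ext e
    rw [Finset.mem_bipartiteBelow]
    exact ⟨fun h => ⟨hF F hF' h, h⟩, fun h => h.2⟩
  rw [h1, ← Finset.sum_card_bipartiteAbove_eq_sum_card_bipartiteBelow]
  have h3 : ∀ e ∈ S,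
      (𝓕.bipartiteAbove (fun (e : Sym2 V) (F : Finset (Sym2 V)) => e ∈ F) e).card ≤ 2 :=
    fun e _ => h2 e
  refine (Finset.sum_le_sum h3).trans ?_
  rw [Finset.sum_const, smul_eq_mul, mul_comm]

theorem charge_neg (hML : ML (edg G univ)) (hc : NoCyc G) (hW : W.Nonempty) :
    ∑ v ∈ W, ch G W v < 0 := by
  classical
  have hsub : edg G W ⊆ edg G univ := by
    intro e he
    rw [mem_edg] at he ⊢
    exact ⟨he.1, fun v _ => mem_univ v⟩
  obtain ⟨𝓕, h1, h2, h3⟩ := (hML.mono hsub).min_family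
  have hS : ∀ a b, s(a, b) ∈ edg G W → a ≠ b ∧ a ∈ W ∧ b ∈ W := by
    intro a b h
    rw [mem_edg'] at h
    exact ⟨h.1.ne, h.2⟩
  have h4 := card_le_family hW hS (fun F hF => (h1 F hF).1) h3
  have h5 := sum_card_le (fun F hF => (h1 F hF).1) h2
  have h6 : ∀ F ∈ 𝓕, 7 ≤ F.card + if F ∈ (tris G W).image (edg G) then 4 else 0 := by
    intro F hF
    obtain ⟨k1, k2, k3, k4⟩ := h1 F hF
    rcases circuit hc k1 k2 k3 k4 with h | ⟨T, hT, rfl⟩
    · omega
    · rw [if_pos (mem_image_of_mem _ hT), card_edg_tri hT]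
  have h7 := Finset.sum_le_sum h6
  rw [Finset.sum_const, smul_eq_mul, Finset.sum_add_distrib, ← Finset.sum_filter,
    Finset.sum_const, smul_eq_mul] at h7
  have h8 : (𝓕.filter (fun F => F ∈ (tris G W).image (edg G))).card ≤ (tris G W).card := by
    refine (Finset.card_le_card ?_).trans (Finset.card_image_le (s := tris G W) (f := edg G))
    intro F hF
    exact (mem_filter.1 hF).2
  have h9 : ∑ v ∈ W, ch G W v = 15 * (2 * ((edg G W).card : ℤ)) -
      8 * (3 * ((tris G W).card : ℤ)) - 42 * (W.card : ℤ) := by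
    have e1 : (∑ v ∈ W, ((nb G W v).card : ℤ)) = 2 * ((edg G W).card : ℤ) := by
      exact_mod_cast sum_nb G W
    have e2 : (∑ v ∈ W, ((tr G W v).card : ℤ)) = 3 * ((tris G W).card : ℤ) := by
      exact_mod_cast sum_tr G W
    unfold ch
    rw [Finset.sum_sub_distrib, Finset.sum_sub_distrib, ← Finset.mul_sum, ← Finset.mul_sum, e1, e2,
      Finset.sum_const, nsmul_eq_mul]
    ring
  rw [h9]
  omega

end Pool.Agent.Lib.SVT
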