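import Pool.Agent.Lib.SVT.Defs

/-!
# SVT.Cyc: forbidden cycles in terms of vertices

`NoCyc G` (no cyclic walk of length 4, 5 or 6) gives `NoC4`, `NoC5`, `NoC6`.  Plan: build the walk
`Walk.cons h1 (Walk.cons h2 ...)` and prove `IsCycle` (`SimpleGraph.Walk.cons_isCycle_iff` or
`isCycle_def`, `simp` with the distinctness hypotheses; in NoC4, NoC5 the other pairs of vertices
are distinct because they are adjacent).
-/

set_option autoImplicit false
set_option linter.unusedSimpArgs false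

namespace Pool.Agent.Lib.SVT

variable {V : Type*} {G : SimpleGraph V}

theorem noC4_of (h : NoCyc G) : NoC4 G := by
  intro a b c d hac hbd h1 h2 h3 h4
  have n1 := h1.ne
  have n2 := h2.ne
  have n3 := h3.ne
  have n4 := h4.ne
  refine (h a (.cons h1 (.cons h2 (.cons h3 (.cons h4 .nil)))) ?_).1 (by simp)
  rw [SimpleGraph.Walk.cons_isCycle_iff]
  simp [SimpleGraph.Walk.cons_isPath_iff, n1, n2, n3, n4, hac, hbd, n1.symm, n2.symm, n3.symm,
    n4.symm, hac.symm, hbd.symm]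

theorem noC5_of (h : NoCyc G) : NoC5 G := by
  intro a b c d e p1 p2 p3 p4 p5 h1 h2 h3 h4 h5
  have n1 := h1.ne
  have n2 := h2.ne
  have n3 := h3.ne
  have n4 := h4.ne
  have n5 := h5.ne
  refine (h a (.cons h1 (.cons h2 (.cons h3 (.cons h4 (.cons h5 .nil))))) ?_).2.1 (by simp)
  rw [SimpleGraph.Walk.cons_isCycle_iff]
  simp [SimpleGraph.Walk.cons_isPath_iff, n1, n2, n3, n4, n5, n1.symm, n2.symm, n3.symm, n4.symm,
    n5.symm, p1, p2, p3, p4, p5, p1.symm, p2.symm, p3.symm, p4.symm, p5.symm]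

theorem noC6_of (h : NoCyc G) : NoC6 G := by
  intro a b c d e f hn h1 h2 h3 h4 h5 h6
  simp only [List.nodup_cons, List.mem_cons, List.not_mem_nil, or_false, not_or,
    List.nodup_nil, and_true, not_false_eq_true] at hn
  obtain ⟨⟨q1, q2, q3, q4, q5⟩, ⟨q6, q7, q8, q9⟩, ⟨q10, q11, q12⟩, ⟨q13, q14⟩, q15⟩ := hn
  refine (h a (.cons h1 (.cons h2 (.cons h3 (.cons h4 (.cons h5 (.cons h6 .nil)))))) ?_).2.2
    (by simp)
  rw [SimpleGraph.Walk.cons_isCycle_iff]
  simp [SimpleGraph.Walk.cons_isPath_iff, q1, q2, q3, q4, q5, q6, q7, q8, q9, q10, q11, q12, q13,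
    q14, q15, Ne.symm q1, Ne.symm q2, Ne.symm q3, Ne.symm q4, Ne.symm q5, Ne.symm q6, Ne.symm q7,
    Ne.symm q8, Ne.symm q9, Ne.symm q10, Ne.symm q11, Ne.symm q12, Ne.symm q13, Ne.symm q14,
    Ne.symm q15]

end Pool.Agent.Lib.SVT
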