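import Mathlib

/-!
# (7:2)-colourings of planar graphs: definitions

`Col G W`: the subgraph induced on `W` has a (7:2)-colouring.  `Min G W`: `W` is a minimal
non-colourable vertex set.  `Ev F`: the edge set `F` is even (an element of the cycle space).
`ML S`: MacLane's property of the edge set `S` in dual form.
-/

set_option autoImplicit false
set_option linter.unusedSectionVars false

namespace Pool.Agent.Lib.SVT

open Finset

variable {V : Type*} [Fintype V] [DecidableEq V]

/-- the subgraph of `G` induced on `W` has a (7:2)-colouring -/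
def Col (G : SimpleGraph V) (W : Finset V) : Prop :=
  ∃ φ : V → Finset (Fin 7), (∀ v ∈ W, (φ v).card = 2) ∧
    ∀ u ∈ W, ∀ v ∈ W, G.Adj u v → Disjoint (φ u) (φ v)

/-- `W` is a minimal non-colourable vertex set -/
structure Min (G : SimpleGraph V) (W : Finset V) : Prop where
  not_col : ¬ Col G W
  col : ∀ W', W' ⊂ W → Col G W'

/-- the neighbours of `v` in `W` -/
noncomputable def nb (G : SimpleGraph V) (W : Finset V) (v : V) : Finset V := by
  classical exact W.filter (fun u => G.Adj v u)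

lemma mem_nb {G : SimpleGraph V} {W : Finset V} {v u : V} : u ∈ nb G W v ↔ u ∈ W ∧ G.Adj v u := by
  classical
  unfold nb
  rw [mem_filter]

/-- the triangles inside `W` -/
noncomputable def tris (G : SimpleGraph V) (W : Finset V) : Finset (Finset V) := by
  classical exact (W.powersetCard 3).filter (fun T => ∀ u ∈ T, ∀ v ∈ T, u ≠ v → G.Adj u v)

lemma mem_tris {G : SimpleGraph V} {W T : Finset V} :
    T ∈ tris G W ↔ T ⊆ W ∧ T.card = 3 ∧ ∀ u ∈ T, ∀ v ∈ T, u ≠ v → G.Adj u v := by
  classical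
  unfold tris
  rw [mem_filter, mem_powersetCard, and_assoc]

/-- the triangles inside `W` through `v` -/
noncomputable def tr (G : SimpleGraph V) (W : Finset V) (v : V) : Finset (Finset V) := by
  classical exact (tris G W).filter (fun T => v ∈ T)

lemma mem_tr {G : SimpleGraph V} {W T : Finset V} {v : V} :
    T ∈ tr G W v ↔ T ∈ tris G W ∧ v ∈ T := by
  classical
  unfold tr
  rw [mem_filter]

/-- no cycle of length 4 -/
def NoC4 (G : SimpleGraph V) : Prop :=
  ∀ a b c d : V, a ≠ c → b ≠ d → G.Adj a b → G.Adj b c → G.Adj c d → G.Adj d a → False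

/-- no cycle of length 5 -/
def NoC5 (G : SimpleGraph V) : Prop :=
  ∀ a b c d e : V, a ≠ c → a ≠ d → b ≠ d → b ≠ e → c ≠ e →
    G.Adj a b → G.Adj b c → G.Adj c d → G.Adj d e → G.Adj e a → False

/-- no cycle of length 6 -/
def NoC6 (G : SimpleGraph V) : Prop :=
  ∀ a b c d e f : V, [a, b, c, d, e, f].Nodup →
    G.Adj a b → G.Adj b c → G.Adj c d → G.Adj d e → G.Adj e f → G.Adj f a → False

/-- no cycles of length 4, 5, 6, in terms of walks -/
def NoCyc (G : SimpleGraph V) : Prop :=
  ∀ (v : V) (c : G.Walk v v), c.IsCycle → c.length ≠ 4 ∧ c.length ≠ 5 ∧ c.length ≠ 6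

/-- even edge sets -/
def Ev (F : Finset (Sym2 V)) : Prop := ∀ v : V, Even (F.filter (fun e => v ∈ e)).card

/-- MacLane's property of the edge set `S`, in dual form: there is a family of even subsets of `S`
which covers each edge at most twice such that every 0-1 function on the edges with even sum on
each member of the family is a cut. -/
def ML (S : Finset (Sym2 V)) : Prop :=
  ∃ 𝓕 : Finset (Finset (Sym2 V)), (∀ F ∈ 𝓕, F ⊆ S ∧ Ev F) ∧
    (∀ e, (𝓕.filter (fun F => e ∈ F)).card ≤ 2) ∧
    ∀ c : Sym2 V → ZMod 2, (∀ F ∈ 𝓕, ∑ e ∈ F, c e = 0) →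
      ∃ y : V → ZMod 2, ∀ a b, s(a, b) ∈ S → c s(a, b) = y a + y b

/-- the edges of `G` inside `W` -/
noncomputable def edg (G : SimpleGraph V) (W : Finset V) : Finset (Sym2 V) := by
  classical exact univ.filter (fun e => e ∈ G.edgeSet ∧ ∀ v ∈ e, v ∈ W)

lemma mem_edg {G : SimpleGraph V} {W : Finset V} {e : Sym2 V} :
    e ∈ edg G W ↔ e ∈ G.edgeSet ∧ ∀ v ∈ e, v ∈ W := by
  classical
  unfold edg
  simp

lemma mem_edg' {G : SimpleGraph V} {W : Finset V} {a b : V} :
    s(a, b) ∈ edg G W ↔ G.Adj a b ∧ a ∈ W ∧ b ∈ W := by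
  rw [mem_edg, SimpleGraph.mem_edgeSet]
  constructor
  · rintro ⟨h1, h2⟩
    exact ⟨h1, h2 a (Sym2.mem_mk_left a b), h2 b (Sym2.mem_mk_right a b)⟩
  · rintro ⟨h1, h2, h3⟩
    refine ⟨h1, fun v hv => ?_⟩
    rcases Sym2.mem_iff.1 hv with rfl | rfl
    · exact h2
    · exact h3

/-- the charge of `v`: `15 d - 8 t - 42` -/
noncomputable def ch (G : SimpleGraph V) (W : Finset V) (v : V) : ℤ :=
  15 * ((nb G W v).card : ℤ) - 8 * ((tr G W v).card : ℤ) - 42

end Pool.Agent.Lib.SVT
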