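import Pool.Agent.Lib.SVT.Loc

/-!
# SVT.Flow: the first discharging (along free edges)
-/

set_option autoImplicit false
set_option linter.unusedSectionVars false

namespace Pool.Agent.Lib.SVT

open Finset

variable {V : Type*} [Fintype V] [DecidableEq V] {G : SimpleGraph V} {W : Finset V}

/-- charge sent from `u` to `v` -/
noncomputable def sd (G : SimpleGraph V) (W : Finset V) (u v : V) : ℤ := by
  classical exact
    if v ∈ fr G W u ∧ (nb G W v).card = 3 ∧ (tr G W v).card = 1 then
      (if 4 ≤ (nb G W u).card then 5 else if (tr G W u).card = 0 then 3 else 0) else 0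

/-- the charge after the first discharging -/
noncomputable def rest (G : SimpleGraph V) (W : Finset V) (v : V) : ℤ :=
  ch G W v + ∑ u ∈ W, sd G W u v - ∑ u ∈ W, sd G W v u

lemma sum_rest (G : SimpleGraph V) (W : Finset V) : ∑ v ∈ W, rest G W v = ∑ v ∈ W, ch G W v := by
  unfold rest
  rw [sum_sub_distrib, sum_add_distrib]
  have : ∑ v ∈ W, ∑ u ∈ W, sd G W u v = ∑ v ∈ W, ∑ u ∈ W, sd G W v u := sum_comm
  rw [this]
  ring

lemma fr_sub (G : SimpleGraph V) (W : Finset V) (v : V) : fr G W v ⊆ W := by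
  intro u hu
  exact (mem_nb.1 (mem_fr.1 hu).1).1

lemma out_eq (G : SimpleGraph V) (W : Finset V) (v : V) :
    ∑ u ∈ W, sd G W v u =
      (kk G W v : ℤ) * (if 4 ≤ (nb G W v).card then 5 else if (tr G W v).card = 0 then 3 else 0) := by
  classical
  have h1 : ∀ u ∈ W, sd G W v u =
      if u ∈ (fr G W v).filter (fun u => (nb G W u).card = 3 ∧ (tr G W u).card = 1) then
      (if 4 ≤ (nb G W v).card then 5 else if (tr G W v).card = 0 then 3 else 0 : ℤ) else 0 := by
    intro u _
    unfold sd
    simp only [mem_filter]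
  rw [sum_congr rfl h1, ← sum_filter, sum_const, nsmul_eq_mul]
  congr 2
  unfold kk
  congr 1
  ext u
  simp only [mem_filter]
  constructor
  · rintro ⟨_, h⟩
    exact h
  · intro h
    exact ⟨fr_sub G W v h.1, h⟩

lemma in_zero {v : V} (h : ¬ ((nb G W v).card = 3 ∧ (tr G W v).card = 1)) :
    ∑ u ∈ W, sd G W u v = 0 := by
  apply sum_eq_zero
  intro u _
  unfold sd
  rw [if_neg]
  rintro ⟨_, h1⟩
  exact h h1

/-- degree at least 4 -/
lemma rest_big {v : V} (h : 4 ≤ (nb G W v).card) :
    rest G W v = 15 * ((nb G W v).card : ℤ) - 8 * ((tr G W v).card : ℤ) - 42 - 5 * (kk G W v : ℤ) := by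
  unfold rest ch
  rw [out_eq, in_zero (by omega), if_pos h]
  ring

/-- degree 3, no triangle -/
lemma rest_z {v : V} (h : (nb G W v).card = 3) (ht : (tr G W v).card = 0) :
    rest G W v = 3 - 3 * (kk G W v : ℤ) := by
  unfold rest ch
  rw [out_eq, in_zero (by omega), if_neg (by omega), if_pos ht, h, ht]
  push_cast
  ring

/-- degree 3 in a triangle: the unique free neighbour `z` -/
lemma rest_a (h4 : NoC4 G) {v : V} (hv : v ∈ W) (h : (nb G W v).card = 3)
    (ht : (tr G W v).card = 1) : ∃ z, fr G W v = {z} ∧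
      rest G W v = -5 + (if 4 ≤ (nb G W z).card then 5 else if (tr G W z).card = 0 then 3 else 0) := by
  classical
  have h1 := fr_card h4 hv
  rw [h, ht] at h1
  obtain ⟨z, hz⟩ := card_eq_one.1 (show (fr G W v).card = 1 by omega)
  have hzf : z ∈ fr G W v := by rw [hz]; simp
  refine ⟨z, hz, ?_⟩
  unfold rest ch
  have h2 : ∑ u ∈ W, sd G W u v =
      (if 4 ≤ (nb G W z).card then 5 else if (tr G W z).card = 0 then 3 else 0) := by
    rw [sum_eq_single z]
    · unfold sd
      rw [if_pos ⟨fr_symm hv hzf, h, ht⟩]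
    · intro u hu huz
      unfold sd
      rw [if_neg]
      rintro ⟨h3, -⟩
      have := fr_symm hu h3
      rw [hz, mem_singleton] at this
      exact huz this
    · intro h3
      exact absurd (fr_sub G W v hzf) h3
  have h5 : ∑ u ∈ W, sd G W v u = 0 := by
    rw [out_eq, if_neg (show ¬ 4 ≤ (nb G W v).card by omega),
      if_neg (show ¬ (tr G W v).card = 0 by omega), mul_zero]
  rw [h5, h2, h, ht]
  push_cast
  ring

end Pool.Agent.Lib.SVT
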