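import Pool.Agent.Lib.SVT.Red
import Pool.Agent.Lib.SVT.Flow

/-!
# SVT.Disch: the discharging

The charges `rest x` are divided among the flags `(x, T)`, `T` a triangle through `x`: equally,
except that a vertex of type (2,0) gives `5/2` to a bad triangle and `-1/2` to the other one.
-/

set_option autoImplicit false
set_option linter.unusedSectionVars false

namespace Pool.Agent.Lib.SVT

open Finset

variable {V : Type*} [Fintype V] [DecidableEq V] {G : SimpleGraph V} {W : Finset V}

/-- bad triangles -/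
def Bad (G : SimpleGraph V) (W T : Finset V) : Prop :=
  ∃ v ∈ T, (nb G W v).card = 3 ∧ (∃ z ∈ fr G W v, (nb G W z).card = 3 ∧ (tr G W z).card = 1) ∧
    ∀ x ∈ T, x ≠ v → (nb G W x).card = 4 ∧ (tr G W x).card = 2

/-- another triangle through `x` is bad -/
def Ob (G : SimpleGraph V) (W : Finset V) (x : V) (T : Finset V) : Prop :=
  ∃ T' ∈ tr G W x, T' ≠ T ∧ Bad G W T'

/-- the charge of the flag `(x, T)` -/
noncomputable def al (G : SimpleGraph V) (W : Finset V) (x : V) (T : Finset V) : ℚ := by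
  classical exact
    if (nb G W x).card = 4 ∧ (tr G W x).card = 2 then
      (if Bad G W T then (if Ob G W x T then 1 else 5 / 2) else (if Ob G W x T then -1 / 2 else 1))
    else (rest G W x : ℚ) / ((tr G W x).card : ℚ)

lemma al_sum (h4 : NoC4 G) {x : V} (hx : x ∈ W) (ht : (tr G W x).card ≠ 0) :
    ∑ T ∈ tr G W x, al G W x T = (rest G W x : ℚ) := by
  classical
  by_cases h : (nb G W x).card = 4 ∧ (tr G W x).card = 2
  · obtain ⟨T1, T2, hne, h12⟩ := card_eq_two.1 h.2
    have hk : kk G W x = 0 := by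
      have h1 := fr_card h4 hx
      have h2 := kk_le G W x
      rw [h.1, h.2] at h1
      omega
    have hr : (rest G W x : ℚ) = 2 := by
      rw [rest_big (by omega), h.1, h.2, hk]
      norm_num
    have o1 : Ob G W x T1 ↔ Bad G W T2 := by
      unfold Ob
      rw [h12]
      constructor
      · rintro ⟨T', hT', h1, h2⟩
        rw [mem_insert, mem_singleton] at hT'
        rcases hT' with rfl | rfl
        · exact absurd rfl h1
        · exact h2
      · intro h2
        exact ⟨T2, by simp, hne.symm, h2⟩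
    have o2 : Ob G W x T2 ↔ Bad G W T1 := by
      unfold Ob
      rw [h12]
      constructor
      · rintro ⟨T', hT', h1, h2⟩
        rw [mem_insert, mem_singleton] at hT'
        rcases hT' with rfl | rfl
        · exact h2
        · exact absurd rfl h1
      · intro h2
        exact ⟨T1, by simp, hne, h2⟩
    rw [hr, h12, sum_pair hne]
    unfold al
    rw [if_pos h, if_pos h]
    by_cases b1 : Bad G W T1 <;> by_cases b2 : Bad G W T2 <;> simp [o1, o2, b1, b2] <;> norm_num
  · unfold al
    rw [sum_congr rfl (fun T _ => if_neg h), sum_const, nsmul_eq_mul]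
    have : ((tr G W x).card : ℚ) ≠ 0 := by exact_mod_cast ht
    field_simp

lemma double (G : SimpleGraph V) (W : Finset V) (f : V → Finset V → ℚ) :
    ∑ T ∈ tris G W, ∑ x ∈ T, f x T = ∑ x ∈ W, ∑ T ∈ tr G W x, f x T := by
  classical
  apply sum_comm'
  intro T x
  rw [mem_tr]
  constructor
  · rintro ⟨h1, h2⟩
    exact ⟨⟨h1, h2⟩, (mem_tris.1 h1).1 h2⟩
  · rintro ⟨⟨h1, h2⟩, _⟩
    exact ⟨h1, h2⟩

/-- a vertex without triangles -/
lemma rest_nonneg (hm : Min G W) (h4 : NoC4 G) {x : V} (hx : x ∈ W) (ht : (tr G W x).card = 0) :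
    0 ≤ rest G W x := by
  classical
  have hd := min_deg hm hx
  have hk := kk_le G W x
  have hf := fr_card h4 hx
  rw [ht] at hf
  rcases Nat.lt_or_ge (nb G W x).card 4 with h3 | h4'
  · have h3' : (nb G W x).card = 3 := by omega
    rw [rest_z h3' ht]
    have : kk G W x ≤ 1 := by
      by_contra hcon
      have h1 : 1 < kk G W x := by omega
      unfold kk at h1
      obtain ⟨a, ha, b, hb, hab⟩ := one_lt_card.1 h1
      rw [mem_filter] at ha hb
      exact c1 hm hx (mem_fr.1 ha.1).1 (mem_fr.1 hb.1).1 hab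
        (fr_nonadj hx ha.1 (mem_fr.1 hb.1).1) h3' ha.2.1 hb.2.1
    omega
  · rw [rest_big h4', ht]
    rcases Nat.lt_or_ge (nb G W x).card 5 with h5 | h5
    · have h5' : (nb G W x).card = 4 := by omega
      have : kk G W x ≤ 2 := by
        by_contra hcon
        have h1 : 2 < kk G W x := by omega
        unfold kk at h1
        obtain ⟨a, b, c, ha, hb, hc, hab, hac, hbc⟩ := two_lt_card_iff.1 h1
        rw [mem_filter] at ha hb hc
        exact c2 hm hx h5' (mem_fr.1 ha.1).1 (mem_fr.1 hb.1).1 (mem_fr.1 hc.1).1 hab hac hbc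
          (fr_nonadj hx ha.1 (mem_fr.1 hb.1).1) (fr_nonadj hx ha.1 (mem_fr.1 hc.1).1)
          (fr_nonadj hx hb.1 (mem_fr.1 hc.1).1) ha.2.1 hb.2.1 hc.2.1
      omega
    · omega

/-- a vertex of degree at least 4 in a triangle -/
lemma al_big (h4 : NoC4 G) {T : Finset V} (hT : T ∈ tris G W) {x : V} (hx : x ∈ T)
    (hd : 4 ≤ (nb G W x).card) :
    ((nb G W x).card = 4 ∧ (tr G W x).card = 2) ∨ 5 ≤ al G W x T ∨
      ((nb G W x).card = 4 ∧ TwoAt G W T x ∧ al G W x T = 0) := by
  classical
  have hxW : x ∈ W := (mem_tris.1 hT).1 hx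
  have hTx : T ∈ tr G W x := mem_tr.2 ⟨hT, hx⟩
  have ht : 1 ≤ (tr G W x).card := card_pos.2 ⟨T, hTx⟩
  have hf := fr_card h4 hxW
  have hk := kk_le G W x
  by_cases h : (nb G W x).card = 4 ∧ (tr G W x).card = 2
  · exact Or.inl h
  right
  have htq : (0 : ℚ) < ((tr G W x).card : ℚ) := by exact_mod_cast ht
  have hal : al G W x T = (rest G W x : ℚ) / ((tr G W x).card : ℚ) := by
    unfold al
    rw [if_neg h]
  rw [hal]
  by_cases h5 : 5 * ((tr G W x).card : ℤ) ≤ rest G W x
  · left
    rw [le_div_iff₀ htq]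
    exact_mod_cast h5
  · right
    rw [rest_big hd] at h5
    have e1 : (nb G W x).card = 4 := by omega
    have e2 : (tr G W x).card = 1 := by omega
    have e3 : kk G W x = 2 := by omega
    refine ⟨e1, ?_, ?_⟩
    · have e4 := e3
      unfold kk at e4
      obtain ⟨n, n', hne, hnn⟩ := card_eq_two.1 e4
      have hn : n ∈ (fr G W x).filter (fun u => (nb G W u).card = 3 ∧ (tr G W u).card = 1) := by
        rw [hnn]; simp
      have hn' : n' ∈ (fr G W x).filter (fun u => (nb G W u).card = 3 ∧ (tr G W u).card = 1) := by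
        rw [hnn]; simp
      rw [mem_filter] at hn hn'
      exact ⟨n, n', (mem_fr.1 hn.1).1, (mem_fr.1 hn'.1).1, (mem_fr.1 hn.1).2 T hTx,
        (mem_fr.1 hn'.1).2 T hTx, hne, fr_nonadj hxW hn.1 (mem_fr.1 hn'.1).1, hn.2.1, hn'.2.1⟩
    · rw [rest_big hd, e1, e2, e3]
      norm_num

/-- a bad triangle through `x` other than `T` -/
lemma badAt_of_ob (h4 : NoC4 G) {T : Finset V} (hT : T ∈ tris G W) {x : V} (hx : x ∈ T)
    (hd : (nb G W x).card = 4) (hob : Ob G W x T) :
    ∃ v y z, v ∈ nb G W x ∧ y ∈ nb G W x ∧ v ∉ T ∧ y ∉ T ∧ G.Adj v y ∧ z ∈ nb G W v ∧ z ≠ x ∧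
      z ≠ y ∧ (nb G W v).card = 3 ∧ (nb G W y).card = 4 ∧ (nb G W z).card = 3 := by
  obtain ⟨T', hT', hne, v, hv, dv, ⟨z, hz, dz, -⟩, hall⟩ := hob
  obtain ⟨hT1, hxT'⟩ := mem_tr.1 hT'
  have hxv : x ≠ v := by
    rintro rfl
    omega
  have hvT : v ∉ T := fun h => hne (tri_unique h4 hT1 hT hxv hxT' hv hx h)
  have hzT' : z ∉ T' := (mem_fr.1 hz).2 T' (mem_tr.2 ⟨hT1, hv⟩)
  have key : ∀ y, y ∈ T' → y ≠ x → y ≠ v → G.Adj v y →
      ∃ v y z, v ∈ nb G W x ∧ y ∈ nb G W x ∧ v ∉ T ∧ y ∉ T ∧ G.Adj v y ∧ z ∈ nb G W v ∧ z ≠ x ∧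
      z ≠ y ∧ (nb G W v).card = 3 ∧ (nb G W y).card = 4 ∧ (nb G W z).card = 3 := by
    intro y hy hyx hyv hadj
    refine ⟨v, y, z, nb_of_tri hT1 hxT' hv hxv, nb_of_tri hT1 hxT' hy hyx.symm, hvT,
      fun h => hne (tri_unique h4 hT1 hT hyx.symm hxT' hy hx h), hadj, (mem_fr.1 hz).1, ?_, ?_,
      dv, (hall y hy hyv).1, dz⟩
    · rintro rfl
      exact hzT' hxT'
    · rintro rfl
      exact hzT' hy
  obtain ⟨a, b, hTab, hab, h1, h2, h3, -⟩ := tri_cases hT1 hxT'
  have hv' := hv
  rw [hTab, mem_insert, mem_insert, mem_singleton] at hv'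
  rcases hv' with h | h | h
  · exact absurd h.symm hxv
  · subst h
    exact key b (by rw [hTab]; simp) h2.ne.symm hab.symm h3
  · subst h
    exact key a (by rw [hTab]; simp) h1.ne.symm hab h3.symm

/-- a triangle with a 3-vertex does not meet a bad triangle in a 4-vertex -/
lemma no_ob (hm : Min G W) (h4 : NoC4 G) {T : Finset V} (hT : T ∈ tris G W) {x w : V}
    (hx : x ∈ T) (hd : (nb G W x).card = 4) (hw : w ∈ T) (dw : (nb G W w).card = 3) :
    ¬ Ob G W x T := by
  intro hob
  obtain ⟨v, y, z, hv, hy, hvT, hyT, hvy, hz, hzx, hzy, dv, dy, dz⟩ := badAt_of_ob h4 hT hx hd hob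
  have hwx : x ≠ w := by
    rintro rfl
    omega
  exact r6 hm h4 ((mem_tris.1 hT).1 hx) hd hv hy hvy (nb_of_tri hT hx hw hwx)
    (fun h => hvT (h ▸ hw)) (fun h => hyT (h ▸ hw)) hz hzx hzy dv dy dz dw

/-- in a triangle with a 3-vertex a vertex of degree at least 4 has flag charge at least 1 -/
lemma al_one (hm : Min G W) (h4 : NoC4 G) {T : Finset V} (hT : T ∈ tris G W) {x w : V}
    (hx : x ∈ T) (hd : 4 ≤ (nb G W x).card) (hw : w ∈ T) (dw : (nb G W w).card = 3) :
    (((nb G W x).card = 4 ∧ (tr G W x).card = 2) ∧ 1 ≤ al G W x T ∧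
      (Bad G W T → al G W x T = 5 / 2)) ∨ 5 ≤ al G W x T := by
  classical
  have hwx : x ≠ w := by
    rintro rfl
    omega
  rcases al_big h4 hT hx hd with h | h | ⟨h1, h2, -⟩
  · left
    have hno := no_ob hm h4 hT hx h.1 hw dw
    refine ⟨h, ?_, ?_⟩
    · unfold al
      rw [if_pos h, if_neg hno, if_neg hno]
      split_ifs <;> norm_num
    · intro hB
      unfold al
      rw [if_pos h, if_pos hB, if_neg hno]
  · exact Or.inr h
  · exfalso
    obtain ⟨n, n', hn, hn', hnT, hnT', hne, hnn, dn, dn'⟩ := h2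
    have hxW : x ∈ W := (mem_tris.1 hT).1 hx
    have hwn := nb_of_tri hT hx hw hwx
    have key : ∀ m, m ∈ nb G W x → m ∉ T → ¬ G.Adj m w := by
      intro m hm' hmT hadj
      obtain ⟨p1, p2⟩ := mem_nb.1 hm'
      obtain ⟨p3, p4⟩ := mem_nb.1 hwn
      have hT2 := mk_tri hxW p1 p3 p2 p4 hadj
      have := tri_unique h4 hT2 hT hwx (by simp) (by simp) hx hw
      rw [← this] at hmT
      simp at hmT
    refine c2 hm hxW h1 hn hn' hwn hne ?_ ?_ hnn (key n hn hnT) (key n' hn' hnT') dn dn' dw
    · rintro rfl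
      exact hnT hw
    · rintro rfl
      exact hnT' hw

/-- the flag charge of a 3-vertex -/
lemma al_three (hm : Min G W) (h4 : NoC4 G) {T : Finset V} (hT : T ∈ tris G W) {v : V}
    (hv : v ∈ T) (dv : (nb G W v).card = 3) :
    al G W v T = 0 ∨ ((∀ x ∈ T, x ≠ v → 4 ≤ (nb G W x).card) ∧ (al G W v T = -2 ∨
      (al G W v T = -5 ∧ ∃ z ∈ fr G W v, (nb G W z).card = 3 ∧ (tr G W z).card = 1))) := by
  classical
  have hvW : v ∈ W := (mem_tris.1 hT).1 hv
  have hTv : T ∈ tr G W v := mem_tr.2 ⟨hT, hv⟩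
  have ht1 : 1 ≤ (tr G W v).card := card_pos.2 ⟨T, hTv⟩
  have hf := fr_card h4 hvW
  have ht : (tr G W v).card = 1 := by omega
  obtain ⟨z, hz, hr⟩ := rest_a h4 hvW dv ht
  have hal : al G W v T = (rest G W v : ℚ) := by
    unfold al
    rw [if_neg (by omega), ht]
    simp
  have hzf : z ∈ fr G W v := by rw [hz]; simp
  rw [hal, hr]
  by_cases hdz : 4 ≤ (nb G W z).card
  · left
    rw [if_pos hdz]
    norm_num
  · right
    have hzW := fr_sub G W v hzf
    have dz : (nb G W z).card = 3 := by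
      have := min_deg hm hzW
      omega
    refine ⟨?_, ?_⟩
    · intro x hx hxv
      by_contra hcon
      have hxW : x ∈ W := (mem_tris.1 hT).1 hx
      have dx : (nb G W x).card = 3 := by
        have := min_deg hm hxW
        omega
      have hxn := nb_of_tri hT hv hx hxv.symm
      refine c1 hm hvW (mem_fr.1 hzf).1 hxn ?_ (fr_nonadj hvW hzf hxn) dv dz dx
      rintro rfl
      exact (mem_fr.1 hzf).2 T hTv hx
    · rw [if_neg hdz]
      by_cases htz : (tr G W z).card = 0
      · left
        rw [if_pos htz]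
        norm_num
      · right
        rw [if_neg htz]
        refine ⟨by norm_num, z, hzf, dz, ?_⟩
        have := fr_card h4 hzW
        omega

/-- every triangle has nonnegative charge -/
lemma tri_nonneg (hm : Min G W) (h4 : NoC4 G) (h5 : NoC5 G) (h6 : NoC6 G) {T : Finset V}
    (hT : T ∈ tris G W) : 0 ≤ ∑ x ∈ T, al G W x T := by
  classical
  by_cases h3 : ∃ v ∈ T, (nb G W v).card = 3
  · obtain ⟨v, hv, dv⟩ := h3
    obtain ⟨a, b, hTab, hab, hva, hvb, hadj, -, haW, hbW⟩ := tri_cases hT hv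
    have haT : a ∈ T := by rw [hTab]; simp
    have hbT : b ∈ T := by rw [hTab]; simp
    have hsum : ∑ x ∈ T, al G W x T = al G W v T + (al G W a T + al G W b T) := by
      rw [sum_congr hTab (fun _ _ => rfl), sum_insert (by
        rw [mem_insert, mem_singleton, not_or]
        exact ⟨hva.ne, hvb.ne⟩), sum_pair hab]
    rw [hsum]
    rcases al_three hm h4 hT hv dv with h0 | ⟨hbig, hcase⟩
    · -- `al v = 0`
      have key : ∀ x ∈ T, x ≠ v → 0 ≤ al G W x T := by
        intro x hx hxv
        by_cases hd : 4 ≤ (nb G W x).card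
        · rcases al_one hm h4 hT hx hd hv dv with ⟨_, h, _⟩ | h <;> linarith
        · have dx : (nb G W x).card = 3 := by
            have := min_deg hm ((mem_tris.1 hT).1 hx)
            omega
          rcases al_three hm h4 hT hx dx with h | ⟨h, -⟩
          · rw [h]
          · have := h v hv hxv.symm
            omega
      have h1 := key a haT hva.ne.symm
      have h2 := key b hbT hvb.ne.symm
      linarith
    · have ha := al_one hm h4 hT haT (hbig a haT hva.ne.symm) hv dv
      have hb := al_one hm h4 hT hbT (hbig b hbT hvb.ne.symm) hv dv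
      have ha1 : 1 ≤ al G W a T := by rcases ha with ⟨_, h, _⟩ | h <;> linarith
      have hb1 : 1 ≤ al G W b T := by rcases hb with ⟨_, h, _⟩ | h <;> linarith
      rcases hcase with hc | ⟨hc, hz⟩
      · linarith
      · rcases ha with ⟨ha2, -, ha3⟩ | ha
        · rcases hb with ⟨hb2, -, hb3⟩ | hb
          · have hB : Bad G W T := by
              refine ⟨v, hv, dv, hz, fun x hx hxv => ?_⟩
              rw [hTab, mem_insert, mem_insert, mem_singleton] at hx
              rcases hx with rfl | rfl | rfl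
              · exact absurd rfl hxv
              · exact ha2
              · exact hb2
            rw [ha3 hB, hb3 hB, hc]
            norm_num
          · linarith
        · linarith
  · push Not at h3
    have hd : ∀ x ∈ T, 4 ≤ (nb G W x).card := by
      intro x hx
      have h1 := min_deg hm ((mem_tris.1 hT).1 hx)
      have h2 := h3 x hx
      omega
    have hnB : ¬ Bad G W T := by
      rintro ⟨v, hv, dv, -⟩
      exact h3 v hv dv
    have hcl : ∀ x ∈ T, 1 ≤ al G W x T ∨ (-1 / 2 ≤ al G W x T ∧ (nb G W x).card = 4 ∧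
        (BadAt G W T x ∨ TwoAt G W T x)) := by
      intro x hx
      rcases al_big h4 hT hx (hd x hx) with h | h | ⟨h1, h2, h3'⟩
      · by_cases hob : Ob G W x T
        · right
          refine ⟨?_, h.1, Or.inl (badAt_of_ob h4 hT hx h.1 hob)⟩
          unfold al
          rw [if_pos h, if_neg hnB, if_pos hob]
        · left
          unfold al
          rw [if_pos h, if_neg hnB, if_neg hob]
      · left
        linarith
      · right
        exact ⟨by rw [h3']; norm_num, h1, Or.inr h2⟩
    by_cases hex : ∃ x ∈ T, 1 ≤ al G W x T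
    · obtain ⟨v, hv, hv1⟩ := hex
      obtain ⟨a, b, hTab, hab, hva, hvb, hadj, -, haW, hbW⟩ := tri_cases hT hv
      have haT : a ∈ T := by rw [hTab]; simp
      have hbT : b ∈ T := by rw [hTab]; simp
      have hsum : ∑ x ∈ T, al G W x T = al G W v T + (al G W a T + al G W b T) := by
        rw [sum_congr hTab (fun _ _ => rfl), sum_insert (by
          rw [mem_insert, mem_singleton, not_or]
          exact ⟨hva.ne, hvb.ne⟩), sum_pair hab]
      rw [hsum]
      have h1 : -1 / 2 ≤ al G W a T := by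
        rcases hcl a haT with h | ⟨h, -⟩ <;> linarith
      have h2 : -1 / 2 ≤ al G W b T := by
        rcases hcl b hbT with h | ⟨h, -⟩ <;> linarith
      linarith
    · exfalso
      push Not at hex
      refine c678 hm h4 h5 h6 hT (fun x hx => ?_)
      rcases hcl x hx with h | ⟨-, h1, h2⟩
      · exact absurd h (not_le.2 (hex x hx))
      · exact ⟨h1, h2⟩

theorem charge_nonneg (hm : Min G W) (h4 : NoC4 G) (h5 : NoC5 G) (h6 : NoC6 G) :
    0 ≤ ∑ v ∈ W, ch G W v := by
  classical
  rw [← sum_rest]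
  have key : (0 : ℚ) ≤ ((∑ v ∈ W, rest G W v : ℤ) : ℚ) := by
    push_cast
    rw [← sum_filter_add_sum_filter_not W (fun v => (tr G W v).card = 0)]
    have h1 : 0 ≤ ∑ v ∈ W.filter (fun v => (tr G W v).card = 0), (rest G W v : ℚ) := by
      apply sum_nonneg
      intro v hv
      rw [mem_filter] at hv
      exact_mod_cast rest_nonneg hm h4 hv.1 hv.2
    have h2 : ∑ v ∈ W.filter (fun v => ¬ (tr G W v).card = 0), (rest G W v : ℚ) =
        ∑ T ∈ tris G W, ∑ x ∈ T, al G W x T := by
      rw [double, ← sum_filter_add_sum_filter_not W (fun v => (tr G W v).card = 0)]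
      rw [sum_eq_zero (s := W.filter (fun v => (tr G W v).card = 0)), zero_add]
      · apply sum_congr rfl
        intro v hv
        rw [mem_filter] at hv
        exact (al_sum h4 hv.1 hv.2).symm
      · intro v hv
        rw [mem_filter, card_eq_zero] at hv
        rw [hv.2, sum_empty]
    rw [h2]
    have h3 : 0 ≤ ∑ T ∈ tris G W, ∑ x ∈ T, al G W x T :=
      sum_nonneg (fun T hT => tri_nonneg hm h4 h5 h6 hT)
    linarith
  exact_mod_cast key

end Pool.Agent.Lib.SVT
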