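import Pool.Agent.Lib.SVT.Defs

/-!
# SVT.Fam: MacLane's property is hereditary; families of circuits

Plan for `ML.mono`.  Induction on `(S \ S').card`: it is enough to delete one edge `e0` from `S`.
Given the family `𝓕` for `S` put
`𝓕' = 𝓕.filter (e0 ∉ ·) ∪ ((𝓕.filter (e0 ∈ ·)).offDiag.image (fun p => symmDiff p.1 p.2))`
(the second part has at most one element because at most two members of `𝓕` contain `e0`).
* members: even (the symmetric difference of even sets is even), contained in `S.erase e0`;
* cover: if `F1, F2` are the two members through `e0` and `e ∈ symmDiff F1 F2`, then exactly one of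
  them contains `e`;
* dual property: given `c` with zero sums on `𝓕'`, put `c' = Function.update c e0 (∑ e ∈ F1.erase e0, c e)`
  where `F1` is a member through `e0` (if there is one, else `c' = c`); then `c'` has zero sums on
  all members of `𝓕` (on `F2`: because the sum of `c` over `symmDiff F1 F2` is zero), so it is a cut
  on `S`, and `c' = c` off `e0`.

Plan for `ML.min_family`.  Among all families with the three properties of `ML S` take one which
minimises `∑ F ∈ 𝓕, F.card ^ 2`; a nonempty member `F` with a proper nonempty even subset `F'` could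
be replaced by `F'` and `F \ F'` (also even), which makes the sum smaller; finally erase `∅`.
-/

set_option autoImplicit false
set_option linter.unusedSectionVars false

namespace Pool.Agent.Lib.SVT

open Finset

variable {V : Type*} [Fintype V] [DecidableEq V]

lemma sum_eq_univ (A : Finset (Sym2 V)) (c : Sym2 V → ZMod 2) :
    ∑ e ∈ A, c e = ∑ e, if e ∈ A then c e else 0 := by
  rw [← Finset.sum_filter]
  congr 1
  ext e
  simp

lemma sum_symmDiff (A B : Finset (Sym2 V)) (c : Sym2 V → ZMod 2) :
    ∑ e ∈ symmDiff A B, c e = ∑ e ∈ A, c e + ∑ e ∈ B, c e := by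
  rw [sum_eq_univ (symmDiff A B), sum_eq_univ A, sum_eq_univ B, ← Finset.sum_add_distrib]
  refine Finset.sum_congr rfl fun e _ => ?_
  by_cases h1 : e ∈ A <;> by_cases h2 : e ∈ B <;>
    simp [h1, h2, Finset.mem_symmDiff, CharTwo.add_self_eq_zero]

lemma ev_iff {F : Finset (Sym2 V)} :
    Ev F ↔ ∀ v : V, ∑ e ∈ F, (if v ∈ e then (1 : ZMod 2) else 0) = 0 := by
  unfold Ev
  refine forall_congr' fun v => ?_
  rw [Finset.sum_boole]
  exact (ZMod.natCast_eq_zero_iff_even).symm

lemma Ev.symmDiff {A B : Finset (Sym2 V)} (hA : Ev A) (hB : Ev B) : Ev (symmDiff A B) := by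
  rw [ev_iff] at hA hB ⊢
  intro v
  rw [sum_symmDiff, hA v, hB v, add_zero]

lemma Ev.sdiff {A B : Finset (Sym2 V)} (hA : Ev A) (hB : Ev B) (h : B ⊆ A) : Ev (A \ B) := by
  have h1 : _root_.symmDiff A B = A \ B := by
    ext e
    rw [Finset.mem_symmDiff, Finset.mem_sdiff]
    constructor
    · rintro (h1 | h1)
      · exact h1
      · exact absurd (h h1.1) h1.2
    · intro h1
      exact Or.inl h1
  rw [← h1]
  exact hA.symmDiff hB

lemma sum_bump (A : Finset (Sym2 V)) (c : Sym2 V → ZMod 2) (e0 : Sym2 V) (δ : ZMod 2) :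
    ∑ e ∈ A, (c e + if e = e0 then δ else 0) = ∑ e ∈ A, c e + if e0 ∈ A then δ else 0 := by
  rw [Finset.sum_add_distrib, Finset.sum_ite_eq']

/-- a family with the three properties of `ML` -/
def Good (S : Finset (Sym2 V)) (𝓕 : Finset (Finset (Sym2 V))) : Prop :=
  (∀ F ∈ 𝓕, F ⊆ S ∧ Ev F) ∧
    (∀ e, (𝓕.filter (fun F => e ∈ F)).card ≤ 2) ∧
    ∀ c : Sym2 V → ZMod 2, (∀ F ∈ 𝓕, ∑ e ∈ F, c e = 0) →
      ∃ y : V → ZMod 2, ∀ a b, s(a, b) ∈ S → c s(a, b) = y a + y b

lemma ML.erase {S : Finset (Sym2 V)} (h : ML S) (e0 : Sym2 V) : ML (S.erase e0) := by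
  obtain ⟨𝓕, h1, h2, h3⟩ := h
  have hcard := h2 e0
  have h012 : (𝓕.filter (fun F => e0 ∈ F)).card = 0 ∨ (𝓕.filter (fun F => e0 ∈ F)).card = 1 ∨
      (𝓕.filter (fun F => e0 ∈ F)).card = 2 := by omega
  rcases h012 with h0 | h0 | h0
  · have hno : ∀ F ∈ 𝓕, e0 ∉ F := by
      intro F hF he
      have : F ∈ 𝓕.filter (fun F => e0 ∈ F) := Finset.mem_filter.2 ⟨hF, he⟩
      rw [Finset.card_eq_zero] at h0
      rw [h0] at this
      exact absurd this (Finset.notMem_empty F)
    refine ⟨𝓕, fun F hF => ⟨?_, (h1 F hF).2⟩, h2, fun c hc => ?_⟩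
    · intro e he
      refine Finset.mem_erase.2 ⟨?_, (h1 F hF).1 he⟩
      rintro rfl
      exact hno F hF he
    · obtain ⟨y, hy⟩ := h3 c hc
      exact ⟨y, fun a b hab => hy a b (Finset.mem_of_mem_erase hab)⟩
  · obtain ⟨F1, hF1⟩ := Finset.card_eq_one.1 h0
    have hm : ∀ F, (F ∈ 𝓕 ∧ e0 ∈ F) ↔ F = F1 := by
      intro F
      rw [← Finset.mem_filter (p := fun F => e0 ∈ F), hF1, Finset.mem_singleton]
    refine ⟨𝓕.erase F1, fun F hF => ?_, fun e => ?_, fun c hc => ?_⟩
    · obtain ⟨hne, hF⟩ := Finset.mem_erase.1 hF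
      refine ⟨fun e he => Finset.mem_erase.2 ⟨?_, (h1 F hF).1 he⟩, (h1 F hF).2⟩
      rintro rfl
      exact hne ((hm F).1 ⟨hF, he⟩)
    · refine le_trans (Finset.card_le_card ?_) (h2 e)
      exact Finset.filter_subset_filter _ (Finset.erase_subset _ _)
    · obtain ⟨y, hy⟩ := h3 (fun e => c e + if e = e0 then ∑ e ∈ F1, c e else 0) (by
        intro F hF
        rw [sum_bump]
        by_cases hF1' : F = F1
        · subst hF1'
          rw [if_pos ((hm F).2 rfl).2]
          exact CharTwo.add_self_eq_zero _
        · rw [if_neg (fun he => hF1' ((hm F).1 ⟨hF, he⟩)), add_zero]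
          exact hc F (Finset.mem_erase.2 ⟨hF1', hF⟩))
      refine ⟨y, fun a b hab => ?_⟩
      have := hy a b (Finset.mem_of_mem_erase hab)
      rw [if_neg (Finset.ne_of_mem_erase hab), add_zero] at this
      exact this
  · obtain ⟨F1, F2, hne, hF12⟩ := Finset.card_eq_two.1 h0
    have hm : ∀ F, (F ∈ 𝓕 ∧ e0 ∈ F) ↔ F = F1 ∨ F = F2 := by
      intro F
      rw [← Finset.mem_filter (p := fun F => e0 ∈ F), hF12, Finset.mem_insert,
        Finset.mem_singleton]
    have hF1 := (hm F1).2 (Or.inl rfl)
    have hF2 := (hm F2).2 (Or.inr rfl)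
    refine ⟨insert (_root_.symmDiff F1 F2) ((𝓕.erase F1).erase F2), fun F hF => ?_, fun e => ?_,
      fun c hc => ?_⟩
    · rcases Finset.mem_insert.1 hF with rfl | hF
      · refine ⟨fun e he => ?_, (h1 F1 hF1.1).2.symmDiff (h1 F2 hF2.1).2⟩
        rw [Finset.mem_symmDiff] at he
        refine Finset.mem_erase.2 ⟨?_, ?_⟩
        · rintro rfl
          rcases he with he | he
          · exact he.2 hF2.2
          · exact he.2 hF1.2
        · rcases he with he | he
          · exact (h1 F1 hF1.1).1 he.1
          · exact (h1 F2 hF2.1).1 he.1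
      · obtain ⟨hn2, hF⟩ := Finset.mem_erase.1 hF
        obtain ⟨hn1, hF⟩ := Finset.mem_erase.1 hF
        refine ⟨fun e he => Finset.mem_erase.2 ⟨?_, (h1 F hF).1 he⟩, (h1 F hF).2⟩
        rintro rfl
        rcases (hm F).1 ⟨hF, he⟩ with h | h
        · exact hn1 h
        · exact hn2 h
    · have h2e := h2 e
      by_cases he : e ∈ _root_.symmDiff F1 F2
      · -- exactly one of F1, F2 contains e
        have hsub : ((insert (_root_.symmDiff F1 F2) ((𝓕.erase F1).erase F2)).filter
            (fun F => e ∈ F)) ⊆ insert (_root_.symmDiff F1 F2)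
              (((𝓕.filter (fun F => e ∈ F)).erase F1).erase F2) := by
          intro F hF
          simp only [Finset.mem_filter, Finset.mem_insert, Finset.mem_erase] at hF ⊢
          rcases hF.1 with h | h
          · exact Or.inl h
          · exact Or.inr ⟨h.1, h.2.1, h.2.2, hF.2⟩
        have hlt : (((𝓕.filter (fun F => e ∈ F)).erase F1).erase F2).card + 1 ≤
            (𝓕.filter (fun F => e ∈ F)).card := by
          rw [Finset.mem_symmDiff] at he
          rcases he with he | he
          · have hx : F1 ∈ 𝓕.filter (fun F => e ∈ F) := Finset.mem_filter.2 ⟨hF1.1, he.1⟩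
            have := Finset.card_erase_add_one hx
            have h' := Finset.card_le_card
              (Finset.erase_subset F2 ((𝓕.filter (fun F => e ∈ F)).erase F1))
            omega
          · have hx : F2 ∈ 𝓕.filter (fun F => e ∈ F) := Finset.mem_filter.2 ⟨hF2.1, he.1⟩
            have := Finset.card_erase_add_one hx
            have h' := Finset.card_le_card
              (Finset.erase_subset F1 ((𝓕.filter (fun F => e ∈ F)).erase F2))
            rw [Finset.erase_right_comm]
            omega
        have h3' := Finset.card_le_card hsub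
        have h4 := Finset.card_insert_le (_root_.symmDiff F1 F2)
          (((𝓕.filter (fun F => e ∈ F)).erase F1).erase F2)
        omega
      · refine le_trans (Finset.card_le_card ?_) h2e
        intro F hF
        simp only [Finset.mem_filter, Finset.mem_insert, Finset.mem_erase] at hF ⊢
        rcases hF.1 with h | h
        · rw [h] at hF
          exact absurd hF.2 he
        · exact ⟨h.2.2, hF.2⟩
    · have hs : ∑ e ∈ F1, c e + ∑ e ∈ F2, c e = 0 := by
        rw [← sum_symmDiff]
        exact hc _ (Finset.mem_insert_self _ _)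
      obtain ⟨y, hy⟩ := h3 (fun e => c e + if e = e0 then ∑ e ∈ F1, c e else 0) (by
        intro F hF
        rw [sum_bump]
        by_cases hF1' : F = F1
        · subst hF1'
          rw [if_pos hF1.2]
          exact CharTwo.add_self_eq_zero _
        · by_cases hF2' : F = F2
          · subst hF2'
            rw [if_pos hF2.2, add_comm]
            exact hs
          · rw [if_neg, add_zero]
            · exact hc F (Finset.mem_insert_of_mem (Finset.mem_erase.2
                ⟨hF2', Finset.mem_erase.2 ⟨hF1', hF⟩⟩))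
            · intro he
              rcases (hm F).1 ⟨hF, he⟩ with h | h
              · exact hF1' h
              · exact hF2' h)
      refine ⟨y, fun a b hab => ?_⟩
      have := hy a b (Finset.mem_of_mem_erase hab)
      rw [if_neg (Finset.ne_of_mem_erase hab), add_zero] at this
      exact this

theorem ML.mono {S S' : Finset (Sym2 V)} (h : ML S) (hsub : S' ⊆ S) : ML S' := by
  have key : ∀ T : Finset (Sym2 V), ML (S \ T) := by
    intro T
    induction T using Finset.induction_on with
    | empty => rw [Finset.sdiff_empty]; exact h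
    | insert e T _ ih =>
      have h1 : S \ insert e T = (S \ T).erase e := by
        ext x
        simp only [Finset.mem_sdiff, Finset.mem_insert, Finset.mem_erase]
        tauto
      rw [h1]
      exact ih.erase e
  have h2 := key (S \ S')
  rwa [Finset.sdiff_sdiff_eq_self hsub] at h2

lemma good_min {S : Finset (Sym2 V)} : ∀ n : ℕ, ∀ 𝓕 : Finset (Finset (Sym2 V)), Good S 𝓕 →
    ∑ F ∈ 𝓕, F.card ^ 2 = n →
    ∃ 𝓖, Good S 𝓖 ∧ ∀ F ∈ 𝓖, F.Nonempty → ∀ F', F' ⊆ F → Ev F' → F'.Nonempty → F' = F := by
  intro n
  induction n using Nat.strong_induction_on with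
  | _ n ih =>
    intro 𝓕 hg hn
    by_cases hall : ∀ F ∈ 𝓕, F.Nonempty → ∀ F', F' ⊆ F → Ev F' → F'.Nonempty → F' = F
    · exact ⟨𝓕, hg, hall⟩
    · push Not at hall
      obtain ⟨F, hF, hFn, F', hsub, hev, hne, hneq⟩ := hall
      obtain ⟨g1, g2, g3⟩ := hg
      have hD : (F \ F').Nonempty := by
        rw [Finset.sdiff_nonempty]
        exact fun h => hneq (Finset.Subset.antisymm hsub h)
      have hcard : (F \ F').card + F'.card = F.card := Finset.card_sdiff_add_card_eq_card hsub
      have hsum : ∑ G ∈ insert F' (insert (F \ F') (𝓕.erase F)), G.card ^ 2 < n := by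
        have e1 : ∑ G ∈ insert F' (insert (F \ F') (𝓕.erase F)), G.card ^ 2 ≤
            F'.card ^ 2 + ∑ G ∈ insert (F \ F') (𝓕.erase F), G.card ^ 2 := by
          by_cases hx : F' ∈ insert (F \ F') (𝓕.erase F)
          · rw [Finset.insert_eq_of_mem hx]
            exact Nat.le_add_left _ _
          · rw [Finset.sum_insert hx]
        have e2 : ∑ G ∈ insert (F \ F') (𝓕.erase F), G.card ^ 2 ≤
            (F \ F').card ^ 2 + ∑ G ∈ 𝓕.erase F, G.card ^ 2 := by
          by_cases hx : F \ F' ∈ 𝓕.erase F
          · rw [Finset.insert_eq_of_mem hx]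
            exact Nat.le_add_left _ _
          · rw [Finset.sum_insert hx]
        have e3 : F.card ^ 2 + ∑ G ∈ 𝓕.erase F, G.card ^ 2 = n := by
          rw [← hn]
          exact Finset.add_sum_erase 𝓕 (fun G => G.card ^ 2) hF
        have p1 := Finset.card_pos.2 hD
        have p2 := Finset.card_pos.2 hne
        have e4 : F'.card ^ 2 + (F \ F').card ^ 2 < F.card ^ 2 := by
          rw [← hcard]
          nlinarith [Nat.mul_pos p1 p2]
        omega
      refine ih _ hsum (insert F' (insert (F \ F') (𝓕.erase F))) ⟨?_, ?_, ?_⟩ rfl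
      · intro G hG
        rcases Finset.mem_insert.1 hG with rfl | hG
        · exact ⟨hsub.trans (g1 F hF).1, hev⟩
        · rcases Finset.mem_insert.1 hG with rfl | hG
          · exact ⟨Finset.sdiff_subset.trans (g1 F hF).1, (g1 F hF).2.sdiff hev hsub⟩
          · exact g1 G (Finset.mem_of_mem_erase hG)
      · intro e
        have h2e := g2 e
        by_cases heF : e ∈ F
        · have hx : F ∈ 𝓕.filter (fun G => e ∈ G) := Finset.mem_filter.2 ⟨hF, heF⟩
          have hc1 := Finset.card_erase_add_one hx
          by_cases heF' : e ∈ F'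
          · have hs : ((insert F' (insert (F \ F') (𝓕.erase F))).filter (fun G => e ∈ G)) ⊆
                insert F' ((𝓕.filter (fun G => e ∈ G)).erase F) := by
              intro G hG
              simp only [Finset.mem_filter, Finset.mem_insert, Finset.mem_erase] at hG ⊢
              rcases hG.1 with h | h | h
              · exact Or.inl h
              · rw [h] at hG
                exact absurd heF' (Finset.mem_sdiff.1 hG.2).2
              · exact Or.inr ⟨h.1, h.2, hG.2⟩
            have := Finset.card_le_card hs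
            have h4 := Finset.card_insert_le F' ((𝓕.filter (fun G => e ∈ G)).erase F)
            omega
          · have hs : ((insert F' (insert (F \ F') (𝓕.erase F))).filter (fun G => e ∈ G)) ⊆
                insert (F \ F') ((𝓕.filter (fun G => e ∈ G)).erase F) := by
              intro G hG
              simp only [Finset.mem_filter, Finset.mem_insert, Finset.mem_erase] at hG ⊢
              rcases hG.1 with h | h | h
              · rw [h] at hG
                exact absurd hG.2 heF'
              · exact Or.inl h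
              · exact Or.inr ⟨h.1, h.2, hG.2⟩
            have := Finset.card_le_card hs
            have h4 := Finset.card_insert_le (F \ F') ((𝓕.filter (fun G => e ∈ G)).erase F)
            omega
        · refine le_trans (Finset.card_le_card ?_) h2e
          intro G hG
          simp only [Finset.mem_filter, Finset.mem_insert, Finset.mem_erase] at hG ⊢
          rcases hG.1 with h | h | h
          · rw [h] at hG
            exact absurd (hsub hG.2) heF
          · rw [h] at hG
            exact absurd (Finset.mem_sdiff.1 hG.2).1 heF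
          · exact ⟨h.2, hG.2⟩
      · intro c hc
        refine g3 c fun G hG => ?_
        by_cases hGF : G = F
        · subst hGF
          have h1 := hc F' (Finset.mem_insert_self _ _)
          have h2 := hc (G \ F') (Finset.mem_insert_of_mem (Finset.mem_insert_self _ _))
          rw [← Finset.sum_sdiff hsub, h1, h2, add_zero]
        · exact hc G (Finset.mem_insert_of_mem (Finset.mem_insert_of_mem
            (Finset.mem_erase.2 ⟨hGF, hG⟩)))

theorem ML.min_family {S : Finset (Sym2 V)} (h : ML S) :
    ∃ 𝓕 : Finset (Finset (Sym2 V)), (∀ F ∈ 𝓕, F ⊆ S ∧ Ev F ∧ F.Nonempty ∧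
        ∀ F', F' ⊆ F → Ev F' → F'.Nonempty → F' = F) ∧
      (∀ e, (𝓕.filter (fun F => e ∈ F)).card ≤ 2) ∧
      ∀ c : Sym2 V → ZMod 2, (∀ F ∈ 𝓕, ∑ e ∈ F, c e = 0) →
        ∃ y : V → ZMod 2, ∀ a b, s(a, b) ∈ S → c s(a, b) = y a + y b := by
  obtain ⟨𝓕, h1, h2, h3⟩ := h
  obtain ⟨𝓖, ⟨g1, g2, g3⟩, hmin⟩ := good_min _ 𝓕 ⟨h1, h2, h3⟩ rfl
  refine ⟨𝓖.erase ∅, fun F hF => ?_, fun e => ?_, fun c hc => ?_⟩
  · obtain ⟨hne, hF⟩ := Finset.mem_erase.1 hF
    have hn := Finset.nonempty_iff_ne_empty.2 hne
    exact ⟨(g1 F hF).1, (g1 F hF).2, hn, hmin F hF hn⟩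
  · refine le_trans (Finset.card_le_card ?_) (g2 e)
    exact Finset.filter_subset_filter _ (Finset.erase_subset _ _)
  · refine g3 c fun F hF => ?_
    by_cases h : F = ∅
    · rw [h, Finset.sum_empty]
    · exact hc F (Finset.mem_erase.2 ⟨h, hF⟩)

end Pool.Agent.Lib.SVT
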