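import Pool.Agent.Lib.SVT.Defs

/-!
# SVT.Loc: local structure (triangles and free neighbours)
-/

set_option autoImplicit false
set_option linter.unusedSectionVars false

namespace Pool.Agent.Lib.SVT

open Finset

variable {V : Type*} [Fintype V] [DecidableEq V] {G : SimpleGraph V} {W : Finset V}

lemma tri_cases {T : Finset V} (hT : T ∈ tris G W) {v : V} (hv : v ∈ T) :
    ∃ a b, T = {v, a, b} ∧ a ≠ b ∧ G.Adj v a ∧ G.Adj v b ∧ G.Adj a b ∧ v ∈ W ∧ a ∈ W ∧ b ∈ W := by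
  obtain ⟨h1, h2, h3⟩ := mem_tris.1 hT
  have h4 : (T.erase v).card = 2 := by rw [card_erase_of_mem hv, h2]
  obtain ⟨a, b, hab, h5⟩ := card_eq_two.1 h4
  have ha : a ∈ T.erase v := by rw [h5]; simp
  have hb : b ∈ T.erase v := by rw [h5]; simp
  rw [mem_erase] at ha hb
  refine ⟨a, b, ?_, hab, h3 v hv a ha.2 (Ne.symm ha.1), h3 v hv b hb.2 (Ne.symm hb.1),
    h3 a ha.2 b hb.2 hab, h1 hv, h1 ha.2, h1 hb.2⟩
  rw [← insert_erase hv, h5]

lemma mk_tri {a b c : V} (ha : a ∈ W) (hb : b ∈ W) (hc : c ∈ W) (h1 : G.Adj a b) (h2 : G.Adj a c)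
    (h3 : G.Adj b c) : ({a, b, c} : Finset V) ∈ tris G W := by
  rw [mem_tris]
  refine ⟨?_, card_eq_three.2 ⟨a, b, c, h1.ne, h2.ne, h3.ne, rfl⟩, ?_⟩
  · intro x hx
    simp only [mem_insert, mem_singleton] at hx
    rcases hx with rfl | rfl | rfl <;> assumption
  · intro u hu v hv huv
    simp only [mem_insert, mem_singleton] at hu hv
    rcases hu with rfl | rfl | rfl <;> rcases hv with rfl | rfl | rfl <;>
      first | exact absurd rfl huv | assumption | (apply SimpleGraph.Adj.symm; assumption)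

/-- two triangles with two common vertices are equal -/
lemma tri_unique (h4 : NoC4 G) {T T' : Finset V} (hT : T ∈ tris G W) (hT' : T' ∈ tris G W)
    {u v : V} (huv : u ≠ v) (hu : u ∈ T) (hv : v ∈ T) (hu' : u ∈ T') (hv' : v ∈ T') : T = T' := by
  obtain ⟨a, b, h1, h2, h3, h5, h6, -⟩ := tri_cases hT hu
  obtain ⟨a', b', h1', h2', h3', h5', h6', -⟩ := tri_cases hT' hu'
  have key : ∀ x y : V, G.Adj u v → G.Adj u x → G.Adj v x → G.Adj u y → G.Adj v y → x = y := by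
    intro x y q1 q2 q3 q4 q5
    by_contra hxy
    exact h4 u x v y huv hxy q2 q3.symm q5 q4.symm
  rw [h1] at hv
  rw [h1'] at hv'
  simp only [mem_insert, mem_singleton] at hv hv'
  rcases hv with rfl | rfl | rfl
  · exact absurd rfl huv
  · rcases hv' with rfl | rfl | rfl
    · exact absurd rfl huv
    · rw [h1, h1', key b b' h3 h5 h6 h5' h6']
    · rw [h1, h1', key b a' h3 h5 h6 h3' h6'.symm]
      rw [pair_comm]
  · rcases hv' with rfl | rfl | rfl
    · exact absurd rfl huv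
    · rw [h1, h1', key a b' h5 h3 h6.symm h5' h6']
      rw [pair_comm]
    · rw [h1, h1', key a a' h5 h3 h6.symm h3' h6'.symm]

/-- the free neighbours: joined to `v` by an edge in no triangle -/
noncomputable def fr (G : SimpleGraph V) (W : Finset V) (v : V) : Finset V := by
  classical exact (nb G W v).filter (fun u => ∀ T ∈ tr G W v, u ∉ T)

lemma mem_fr {u v : V} : u ∈ fr G W v ↔ u ∈ nb G W v ∧ ∀ T ∈ tr G W v, u ∉ T := by
  classical
  unfold fr
  rw [mem_filter]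

lemma fr_card (h4 : NoC4 G) {v : V} (hv : v ∈ W) :
    (fr G W v).card + 2 * (tr G W v).card = (nb G W v).card := by
  classical
  have h1 : fr G W v = nb G W v \ (tr G W v).biUnion (fun T => T.erase v) := by
    ext u
    rw [mem_fr, mem_sdiff, mem_biUnion]
    constructor
    · rintro ⟨h1, h2⟩
      refine ⟨h1, ?_⟩
      rintro ⟨T, hT, hu⟩
      exact h2 T hT (mem_erase.1 hu).2
    · rintro ⟨h1, h2⟩
      refine ⟨h1, fun T hT hu => h2 ⟨T, hT, mem_erase.2 ⟨?_, hu⟩⟩⟩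
      rintro rfl
      exact (mem_nb.1 h1).2.ne rfl
  have h2 : (tr G W v).biUnion (fun T => T.erase v) ⊆ nb G W v := by
    intro u hu
    rw [mem_biUnion] at hu
    obtain ⟨T, hT, hu⟩ := hu
    obtain ⟨hT1, hT2⟩ := mem_tr.1 hT
    obtain ⟨q1, q2, q3⟩ := mem_tris.1 hT1
    rw [mem_erase] at hu
    exact mem_nb.2 ⟨q1 hu.2, q3 v hT2 u hu.2 (Ne.symm hu.1)⟩
  have h3 : ((tr G W v).biUnion (fun T => T.erase v)).card = 2 * (tr G W v).card := by
    rw [card_biUnion]
    · rw [sum_congr rfl (g := fun _ => 2), sum_const, smul_eq_mul, mul_comm]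
      intro T hT
      obtain ⟨hT1, hT2⟩ := mem_tr.1 hT
      rw [card_erase_of_mem hT2, (mem_tris.1 hT1).2.1]
    · intro T hT T' hT' hne
      rw [mem_coe] at hT hT'
      change Disjoint (T.erase v) (T'.erase v)
      rw [disjoint_left]
      intro u hu hu'
      rw [mem_erase] at hu hu'
      obtain ⟨hT1, hT2⟩ := mem_tr.1 hT
      obtain ⟨hT1', hT2'⟩ := mem_tr.1 hT'
      exact hne (tri_unique h4 hT1 hT1' hu.1 hu.2 hT2 hu'.2 hT2')
  rw [h1, card_sdiff_of_subset h2, h3]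
  have := card_le_card h2
  omega

lemma fr_symm {u v : V} (hv : v ∈ W) (h : u ∈ fr G W v) : v ∈ fr G W u := by
  rw [mem_fr] at h ⊢
  obtain ⟨h1, h2⟩ := h
  obtain ⟨h3, h4⟩ := mem_nb.1 h1
  refine ⟨mem_nb.2 ⟨hv, h4.symm⟩, fun T hT hvT => ?_⟩
  obtain ⟨q1, q2⟩ := mem_tr.1 hT
  exact h2 T (mem_tr.2 ⟨q1, hvT⟩) q2

lemma fr_nonadj {u v w : V} (hv : v ∈ W) (h : u ∈ fr G W v) (hw : w ∈ nb G W v) :
    ¬ G.Adj u w := by
  intro huw
  rw [mem_fr] at h
  obtain ⟨h1, h2⟩ := h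
  obtain ⟨h3, h4⟩ := mem_nb.1 h1
  obtain ⟨h5, h6⟩ := mem_nb.1 hw
  have hT := mk_tri hv h3 h5 h4 h6 huw
  exact h2 _ (mem_tr.2 ⟨hT, by simp⟩) (by simp)

lemma nb_of_tri {T : Finset V} (hT : T ∈ tris G W) {v u : V} (hv : v ∈ T) (hu : u ∈ T)
    (huv : v ≠ u) : u ∈ nb G W v := by
  obtain ⟨h1, h2, h3⟩ := mem_tris.1 hT
  exact mem_nb.2 ⟨h1 hu, h3 v hv u hu huv⟩

/-- the number of free neighbours of type (1,1) -/
noncomputable def kk (G : SimpleGraph V) (W : Finset V) (v : V) : ℕ := by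
  classical exact ((fr G W v).filter (fun u => (nb G W u).card = 3 ∧ (tr G W u).card = 1)).card

lemma kk_le (G : SimpleGraph V) (W : Finset V) (v : V) : kk G W v ≤ (fr G W v).card := by
  classical
  unfold kk
  exact card_filter_le _ _

end Pool.Agent.Lib.SVT
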