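import Pool.Agent.Lib.SVT.Defs
import Pool.Agent.Lib.PLE.Genus
import Pool.Agent.Lib.PLC.Final

/-!
# SVT.Rot: from rotation systems to MacLane's property

Plan.  If `H` has no darts then `edg H univ = ∅` and the empty family works.  Otherwise let
`M : PLG.CM H.Dart` be the combinatorial map `σ`, `α = symmPerm H` (`SimpleGraph.Dart.symm`), so
`M.φ = σ * α`.  `PLE.PL_of_euler` (hypotheses: a set of darts closed under `σ` and `α` is empty or
everything, from `H.Connected`; numbers of orbits: `PLC.card_orbs_quot`, `PLC.card_orbs_surj` for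
the vertices - every vertex has a dart because `H` is connected and has an edge -, the orbits of
`α` are the edges) gives `M.PL`: every `c : H.Dart → ZMod 2` with `c (α d) = c d` and zero sum over
each face is of the form `c d = y d + y (α d)` with `y` constant on the darts at a vertex.
The family: for each face (orbit `O` of `φ`) the set of edges with exactly one dart in `O`
(`𝓕` = image of this map over the orbits).
* even: for a vertex `v`, the number of darts `d` at `v` with `d ∈ O` plus the number of darts `d`
  at `v` with `α d ∈ O` is even, because `α d ∈ O ↔ φ (α d) = σ d ∈ O` and `σ` permutes the darts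
  at `v`;
* cover: an edge lies only in the sets of the (at most two) faces of its two darts;
* dual: for `c : Sym2 V → ZMod 2` use `fun d => c d.edge`; an edge with both darts in `O`
  contributes `2 c = 0` to the face sum.
-/

set_option autoImplicit false
set_option linter.unusedSectionVars false

namespace Pool.Agent.Lib.SVT

open Finset

variable {V : Type*} [Fintype V] [DecidableEq V]

/-- reversing the darts -/
def symmPerm (H : SimpleGraph V) : Equiv.Perm H.Dart :=
  Function.Involutive.toPerm SimpleGraph.Dart.symm SimpleGraph.Dart.symm_involutive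

namespace RotAux

open Pool.Agent.Lib.PLG Pool.Agent.Lib.PLE Pool.Agent.Lib.PLC

variable {H : SimpleGraph V}

/-- the combinatorial map of the rotation system -/
def M (σ : Equiv.Perm H.Dart) : CM H.Dart where
  σ := σ
  α := symmPerm H
  αα := fun d => d.symm_symm
  αne := fun d => d.symm_ne

lemma symmPerm_apply (d : H.Dart) : symmPerm H d = d.symm := rfl

/-- the edges with an odd number of darts in `O` -/
noncomputable def FO (O : Finset H.Dart) : Finset (Sym2 V) := by
  classical exact univ.filter (fun e => Odd (O.filter (fun x => x.edge = e)).card)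

lemma mem_FO {O : Finset H.Dart} {e : Sym2 V} :
    e ∈ FO O ↔ Odd (O.filter (fun x => x.edge = e)).card := by
  classical
  unfold FO
  rw [mem_filter]
  simp

lemma exists_of_mem_FO {O : Finset H.Dart} {e : Sym2 V} (h : e ∈ FO O) :
    ∃ x ∈ O, x.edge = e := by
  rw [mem_FO] at h
  have h1 : (O.filter (fun x => x.edge = e)).Nonempty := by
    rw [← card_pos]
    exact h.pos
  obtain ⟨x, hx⟩ := h1
  rw [mem_filter] at hx
  exact ⟨x, hx.1, hx.2⟩

/-- sums over `FO O` -/
lemma sum_FO (O : Finset H.Dart) (c : Sym2 V → ZMod 2) :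
    ∑ e ∈ FO O, c e = ∑ x ∈ O, c x.edge := by
  classical
  have h1 : ∑ x ∈ O, c x.edge = ∑ e : Sym2 V, ∑ x ∈ O.filter (fun x => x.edge = e), c x.edge :=
    (sum_fiberwise O (fun x : H.Dart => x.edge) (fun x => c x.edge)).symm
  have h2 : ∀ e : Sym2 V, ∑ x ∈ O.filter (fun x => x.edge = e), c x.edge =
      if e ∈ FO O then c e else 0 := by
    intro e
    have h3 : ∑ x ∈ O.filter (fun x => x.edge = e), c x.edge =
        ∑ x ∈ O.filter (fun x => x.edge = e), c e := by
      refine sum_congr rfl (fun x hx => ?_)
      rw [(mem_filter.1 hx).2]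
    rw [h3, sum_const, nsmul_eq_mul]
    by_cases he : e ∈ FO O
    · rw [if_pos he]
      rw [mem_FO] at he
      rw [(ZMod.natCast_eq_one_iff_odd).2 he, one_mul]
    · rw [if_neg he]
      rw [mem_FO, Nat.not_odd_iff_even] at he
      rw [(ZMod.natCast_eq_zero_iff_even).2 he, zero_mul]
  rw [h1, sum_congr rfl (fun e _ => h2 e), sum_ite_mem, univ_inter]

end RotAux

open RotAux Pool.Agent.Lib.PLG Pool.Agent.Lib.PLE Pool.Agent.Lib.PLC in
theorem ML_of_rot (H : SimpleGraph V) (hconn : H.Connected) (σ : Equiv.Perm H.Dart)
    (hσ : ∀ d e : H.Dart, d.fst = e.fst ↔ σ.SameCycle d e)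
    (heul : Nat.card V + Nat.card (Quotient (Equiv.Perm.SameCycle.setoid (σ * symmPerm H))) =
      Nat.card H.edgeSet + 2) : ML (edg H univ) := by
  classical
  rcases isEmpty_or_nonempty H.Dart with hD | ⟨⟨d0⟩⟩
  · have h1 : edg H univ = ∅ := by
      rw [eq_empty_iff_forall_notMem]
      intro e he
      induction e using Sym2.ind with
      | _ a b =>
        rw [mem_edg'] at he
        exact hD.false ⟨(a, b), he.1⟩
    refine ⟨∅, fun F hF => absurd hF (notMem_empty F), fun e => by simp, fun c _ => ⟨fun _ => 0, ?_⟩⟩
    intro a b hab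
    rw [h1] at hab
    exact absurd hab (notMem_empty _)
  have hfst : ∀ d, (σ d).fst = d.fst := fun d =>
    (hσ _ _).2 (Equiv.Perm.SameCycle.refl σ d).apply_left
  -- connectedness
  have hconn0 : ∀ S : Finset H.Dart, (∀ d, (M σ).σ d ∈ S ↔ d ∈ S) →
      (∀ d, (M σ).α d ∈ S ↔ d ∈ S) → S = ∅ ∨ S = univ := by
    intro S h1 h2
    rcases S.eq_empty_or_nonempty with h | ⟨x, hx⟩
    · exact Or.inl h
    right
    have hcl : Cl σ S := h1
    have hsame : ∀ d e : H.Dart, d.fst = e.fst → d ∈ S → e ∈ S := fun d e hde hd =>
      (hcl.sc ((hσ d e).1 hde)).1 hd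
    have hwalk : ∀ (a b : V) (p : H.Walk a b), (∀ d : H.Dart, d.fst = a → d ∈ S) →
        ∀ d : H.Dart, d.fst = b → d ∈ S := by
      intro a b p
      induction p with
      | nil => exact fun h => h
      | @cons u v w huv p ih =>
        intro h
        apply ih
        intro d hd
        have h3 : (⟨(u, v), huv⟩ : H.Dart) ∈ S := h _ rfl
        have h4 : (M σ).α ⟨(u, v), huv⟩ ∈ S := (h2 _).2 h3
        refine hsame _ d ?_ h4
        rw [hd]
        rfl
    refine eq_univ_of_forall (fun d => ?_)
    obtain ⟨p⟩ := hconn.preconnected x.fst d.fst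
    exact hwalk _ _ p (fun e he => hsame x e he.symm hx) d rfl
  have hsurj : Function.Surjective (fun d : H.Dart => d.fst) := by
    intro v
    obtain ⟨p⟩ := hconn.preconnected v d0.fst
    cases p with
    | nil => exact ⟨d0, rfl⟩
    | @cons _ w _ hvw p => exact ⟨⟨(v, w), hvw⟩, rfl⟩
  have hPL : (M σ).PL := by
    refine PL_of_euler hconn0 ?_
    have e1 : (orbs (M σ).σ univ).card = Nat.card V :=
      card_orbs_surj σ (fun d : H.Dart => d.fst) hsurj hσ
    have e2 : (orbs (M σ).φ univ).card =
        Nat.card (Quotient (Equiv.Perm.SameCycle.setoid (σ * symmPerm H))) := card_orbs_quot _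
    have e3 : (orbs (M σ).α univ).card = Nat.card H.edgeSet := by
      refine card_orbs_surj (symmPerm H) (fun d : H.Dart => (⟨d.edge, d.edge_mem⟩ : H.edgeSet))
        ?_ ?_
      · rintro ⟨e, he⟩
        induction e using Sym2.ind with
        | _ a b => exact ⟨⟨(a, b), he⟩, rfl⟩
      · intro d d'
        rw [Subtype.mk.injEq]
        constructor
        · intro h
          rcases (SimpleGraph.dart_edge_eq_iff d d').1 h with h | h
          · rw [h]
          · rw [h, ← symmPerm_apply]
            exact (Equiv.Perm.SameCycle.refl _ _).apply_left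
        · intro h
          have hcl : Cl (symmPerm H) (univ.filter (fun x : H.Dart => x.edge = d.edge)) := by
            intro x
            rw [mem_filter, mem_filter, symmPerm_apply, SimpleGraph.Dart.edge_symm]
            simp
          have h5 := (hcl.sc h).1 (by rw [mem_filter]; exact ⟨mem_univ _, rfl⟩)
          rw [mem_filter] at h5
          exact h5.2.symm
    rw [e1, e2, e3]
    exact le_of_eq heul.symm
  have hφ : ∀ x : H.Dart, (((M σ).φ x).fst) = x.snd := by
    intro x
    show (σ (symmPerm H x)).fst = x.snd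
    rw [hfst]
    rfl
  refine ⟨(orbs (M σ).φ univ).image FO, ?_, ?_, ?_⟩
  · intro F hF
    obtain ⟨O, hO, rfl⟩ := mem_image.1 hF
    refine ⟨fun e he => ?_, fun v => ?_⟩
    · obtain ⟨x, _, rfl⟩ := exists_of_mem_FO he
      rw [mem_edg]
      exact ⟨x.edge_mem, fun _ _ => mem_univ _⟩
    · obtain ⟨d, _, rfl⟩ := mem_image.1 hO
      set O := orb (M σ).φ d with hOdef
      have hOcl : ∀ x, (M σ).φ x ∈ O ↔ x ∈ O := by
        intro x
        rw [hOdef, mem_orb, mem_orb, Equiv.Perm.sameCycle_apply_right]
      have h1 := sum_FO O (fun e => if v ∈ e then 1 else 0)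
      rw [← sum_filter, sum_const, nsmul_eq_mul, mul_one] at h1
      rw [← ZMod.natCast_eq_zero_iff_even, h1]
      have h2 : ∀ x : H.Dart, (if v ∈ x.edge then (1 : ZMod 2) else 0) =
          (if x.fst = v then 1 else 0) + (if x.snd = v then 1 else 0) := by
        intro x
        have h3 : v ∈ x.edge ↔ v = x.fst ∨ v = x.snd := by
          rw [SimpleGraph.Dart.edge]
          exact Sym2.mem_iff
        have h4 : x.fst ≠ x.snd := x.fst_ne_snd
        by_cases e1 : x.fst = v
        · have e2 : x.snd ≠ v := fun h => h4 (e1.trans h.symm)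
          rw [if_pos (h3.2 (Or.inl e1.symm)), if_pos e1, if_neg e2, add_zero]
        · by_cases e2 : x.snd = v
          · rw [if_pos (h3.2 (Or.inr e2.symm)), if_neg e1, if_pos e2, zero_add]
          · rw [if_neg e1, if_neg e2, add_zero, if_neg]
            rw [h3]
            rintro (h | h)
            · exact e1 h.symm
            · exact e2 h.symm
      rw [sum_congr rfl (fun x _ => h2 x), sum_add_distrib]
      have h5 : ∑ x ∈ O, (if x.fst = v then (1 : ZMod 2) else 0) =
          ∑ x ∈ O, (if x.snd = v then (1 : ZMod 2) else 0) := by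
        symm
        refine sum_bij (fun x _ => (M σ).φ x) ?_ ?_ ?_ ?_
        · intro x hx
          exact (hOcl x).2 hx
        · intro a _ b _ h
          exact (M σ).φ.injective h
        · intro b hb
          refine ⟨(M σ).φ.symm b, ?_, Equiv.apply_symm_apply _ _⟩
          rw [← hOcl, Equiv.apply_symm_apply]
          exact hb
        · intro x _
          rw [hφ]
      rw [h5]
      exact CharTwo.add_self_eq_zero _
  · intro e
    have h1 : ((orbs (M σ).φ univ).image FO).filter (fun F => e ∈ F) ⊆
        (univ.filter (fun x : H.Dart => x.edge = e)).image (fun x => FO (orb (M σ).φ x)) := by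
      intro F hF
      rw [mem_filter] at hF
      obtain ⟨hF1, hF2⟩ := hF
      obtain ⟨O, hO, rfl⟩ := mem_image.1 hF1
      obtain ⟨d, _, rfl⟩ := mem_image.1 hO
      obtain ⟨x, hx, hxe⟩ := exists_of_mem_FO hF2
      refine mem_image.2 ⟨x, ?_, ?_⟩
      · rw [mem_filter]
        exact ⟨mem_univ _, hxe⟩
      · rw [mem_orb] at hx
        rw [orb_eq hx]
    refine (card_le_card h1).trans (card_image_le.trans ?_)
    by_cases he : e ∈ H.edgeSet
    · exact le_of_eq (H.dart_edge_fiber_card e he)
    · have h2 : univ.filter (fun x : H.Dart => x.edge = e) = ∅ := by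
        rw [filter_eq_empty_iff]
        intro x _ hx
        rw [← hx] at he
        exact he x.edge_mem
      rw [h2, card_empty]
      exact Nat.zero_le _
  · intro c hc
    obtain ⟨y, hy1, hy2⟩ := hPL (fun d => c d.edge) (fun d => by
      show c (d.symm.edge) = c d.edge
      rw [SimpleGraph.Dart.edge_symm]) (fun d => by
      have h1 := hc (FO (orb (M σ).φ d)) (mem_image_of_mem _ (mem_image_of_mem _ (mem_univ d)))
      rw [sum_FO] at h1
      have h2 : univ.filter (fun e => (M σ).SF d e) = orb (M σ).φ d := by
        ext x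
        rw [mem_filter, mem_orb]
        simp
      rw [h2]
      exact h1)
    have hyc : ∀ d e : H.Dart, d.fst = e.fst → y d = y e := fun d e hde =>
      (inv_sc hy1 ((hσ d e).1 hde)).symm
    choose g hg using hsurj
    refine ⟨fun v => y (g v), fun a b hab => ?_⟩
    rw [mem_edg'] at hab
    have h1 := hy2 ⟨(a, b), hab.1⟩
    have e1 : y ⟨(a, b), hab.1⟩ = y (g a) := hyc _ _ (hg a).symm
    have e2 : y ((M σ).α ⟨(a, b), hab.1⟩) = y (g b) := hyc _ _ (hg b).symm
    rw [e1, e2] at h1
    exact h1

end Pool.Agent.Lib.SVT
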