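import Pool.Agent.Lib.SVT.Cyc
import Pool.Agent.Lib.SVT.Count
import Pool.Agent.Lib.SVT.Rot
import Pool.Agent.Lib.SVT.Disch

set_option autoImplicit false
set_option linter.unusedSectionVars false

namespace Pool.Agent.Lib.SVT

open Finset

variable {V : Type*} [Fintype V] [DecidableEq V] {G : SimpleGraph V}

theorem exists_min (h : ¬ Col G univ) : ∃ W : Finset V, Min G W := by
  classical
  have h1 : ∃ W ∈ (univ : Finset (Finset V)), ¬ Col G W := ⟨univ, mem_univ _, h⟩
  obtain ⟨W, hW⟩ := Finset.exists_minimal (s := (univ : Finset (Finset V)).filter (fun W => ¬ Col G W))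
    ⟨univ, by rw [mem_filter]; exact ⟨mem_univ _, h⟩⟩
  refine ⟨W, (mem_filter.1 hW.1).2, fun W' hW' => ?_⟩
  by_contra hcon
  have := hW.2 (show W' ∈ _ from mem_filter.2 ⟨mem_univ _, hcon⟩) hW'.1
  exact hW'.2 this

/-- the sum of the charges in terms of the numbers of vertices, edges and triangles -/
theorem sum_ch (G : SimpleGraph V) (W : Finset V) :
    ∑ v ∈ W, ch G W v = 30 * ((edg G W).card : ℤ) - 24 * ((tris G W).card : ℤ) - 42 * (W.card : ℤ) := by
  have h1 : (∑ v ∈ W, ((nb G W v).card : ℤ)) = 2 * ((edg G W).card : ℤ) := by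
    exact_mod_cast sum_nb G W
  have h2 : (∑ v ∈ W, ((tr G W v).card : ℤ)) = 3 * ((tris G W).card : ℤ) := by
    exact_mod_cast sum_tr G W
  simp only [ch]
  rw [sum_sub_distrib, sum_sub_distrib, ← mul_sum, ← mul_sum, h1, h2, sum_const, nsmul_eq_mul]
  ring

/-- planar graphs without cycles of length 4, 5, 6 are sparse -/
theorem sparse (hML : ML (edg G univ)) (hc : NoCyc G) {W : Finset V} (hW : W.Nonempty) :
    5 * (edg G W).card < 7 * W.card + 4 * (tris G W).card := by
  have h1 := charge_neg hML hc hW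
  rw [sum_ch] at h1
  omega

/-- sparse graphs without cycles of length 4, 5, 6 are (7:2)-colourable -/
theorem seven_two_sparse (hs : ∀ W : Finset V, W.Nonempty →
    5 * (edg G W).card < 7 * W.card + 4 * (tris G W).card) (hc : NoCyc G) :
    ∃ φ : V → Finset (Fin 7), (∀ v, (φ v).card = 2) ∧
      ∀ u v, G.Adj u v → Disjoint (φ u) (φ v) := by
  by_contra hcon
  have hcol : ¬ Col G univ := by
    rintro ⟨φ, h1, h2⟩
    exact hcon ⟨φ, fun v => h1 v (mem_univ v), fun u v h => h2 u (mem_univ u) v (mem_univ v) h⟩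
  obtain ⟨W, hW⟩ := exists_min hcol
  have hne : W.Nonempty := by
    rw [nonempty_iff_ne_empty]
    rintro rfl
    exact hW.not_col ⟨fun _ => ∅, by simp, by simp⟩
  have h1 := hs W hne
  have h2 := charge_nonneg hW (noC4_of hc) (noC5_of hc) (noC6_of hc)
  rw [sum_ch] at h2
  omega

end Pool.Agent.Lib.SVT
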