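import Pool.Agent.Lib.SVT.Defs

/-!
# SVT.PathC: minimum degree and the path of three 3-vertices

Plan for `c1`: colour `W \ {u, a, b}` by minimality.  `a` and `b` have two coloured neighbours each:
lists `La, Lb` of at least 3 colours (take 3-subsets); `u` has one coloured neighbour: list `Lu` of
at least 5 colours (take a 5-subset).  One needs pairs `A ⊆ La`, `B ⊆ Lb` with
`(Lu ∩ (A ∪ B)).card ≤ 3`: if `La ⊄ Lu` take `A` through a point of `La \ Lu`; same for `Lb`;
otherwise `La, Lb ⊆ Lu` and `3 + 3 > 5`, so they have a common point, take `A, B` through it.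
Then a pair for `u` is left in `Lu`.
-/

set_option autoImplicit false
set_option linter.unusedSectionVars false

namespace Pool.Agent.Lib.SVT

open Finset

variable {V : Type*} [Fintype V] [DecidableEq V] {G : SimpleGraph V} {W : Finset V}

namespace PathAux

/-- the colours of the neighbours of `v` in `W` -/
noncomputable def used (G : SimpleGraph V) (W : Finset V) (φ : V → Finset (Fin 7)) (v : V) :
    Finset (Fin 7) := (nb G W v).biUnion φ

/-- the free colours -/
theorem free_card {φ : V → Finset (Fin 7)} (hφ : ∀ w ∈ W, (φ w).card = 2) {v : V} {k : ℕ}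
    (hk : (nb G W v).card ≤ k) : 7 - 2 * k ≤ (univ \ used G W φ v).card := by
  have h1 : (used G W φ v).card ≤ (nb G W v).card * 2 :=
    card_biUnion_le_card_mul _ _ _ fun w hw => (hφ w (mem_nb.1 hw).1).le
  have h2 : (univ \ used G W φ v).card = 7 - (used G W φ v).card := by
    rw [card_sdiff_of_subset (subset_univ _)]
    simp
  omega

theorem dis_of_free {φ : V → Finset (Fin 7)} {v w : V} {A : Finset (Fin 7)}
    (hA : A ⊆ univ \ used G W φ v) (hw : w ∈ W) (hvw : G.Adj v w) : Disjoint A (φ w) := by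
  rw [Finset.disjoint_left]
  intro x hx hxw
  have := (mem_sdiff.1 (hA hx)).2
  exact this (mem_biUnion.2 ⟨w, mem_nb.2 ⟨hw, hvw⟩, hxw⟩)

/-- pairs through a point -/
theorem pair_through {S : Finset (Fin 7)} (hS : S.card = 3) {x : Fin 7} (hx : x ∈ S) :
    ∃ y ∈ S, y ≠ x := by
  have h1 : (S.erase x).card = 2 := by rw [card_erase_of_mem hx, hS]
  have h2 : (S.erase x).Nonempty := by
    rw [← card_pos, h1]
    norm_num
  obtain ⟨y, hy⟩ := h2
  exact ⟨y, mem_of_mem_erase hy, ne_of_mem_erase hy⟩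

theorem two_sets {Sa Sb Su : Finset (Fin 7)} (ha : Sa.card = 3) (hb : Sb.card = 3)
    (hu : Su.card = 5) : ∃ A B : Finset (Fin 7), A ⊆ Sa ∧ A.card = 2 ∧ B ⊆ Sb ∧ B.card = 2 ∧
      (Su ∩ (A ∪ B)).card ≤ 3 := by
  by_cases h1 : Sa ⊆ Su
  · by_cases h2 : Sb ⊆ Su
    · have h3 : (Sa ∪ Sb).card ≤ 5 := by
        rw [← hu]
        exact card_le_card (union_subset h1 h2)
      have h4 := card_union_add_card_inter Sa Sb
      have h5 : (Sa ∩ Sb).Nonempty := by
        rw [← card_pos]
        omega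
      obtain ⟨x, hx⟩ := h5
      rw [mem_inter] at hx
      obtain ⟨y, hy, hyx⟩ := pair_through ha hx.1
      obtain ⟨z, hz, hzx⟩ := pair_through hb hx.2
      refine ⟨{x, y}, {x, z}, ?_, card_pair hyx.symm, ?_, card_pair hzx.symm, ?_⟩
      · intro w hw
        rw [mem_insert, mem_singleton] at hw
        rcases hw with rfl | rfl
        · exact hx.1
        · exact hy
      · intro w hw
        rw [mem_insert, mem_singleton] at hw
        rcases hw with rfl | rfl
        · exact hx.2
        · exact hz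
      · refine le_trans (card_le_card (t := {x, y, z}) ?_) card_le_three
        intro w hw
        have := (mem_inter.1 hw).2
        simp only [mem_union, mem_insert, mem_singleton] at this ⊢
        tauto
    · obtain ⟨x, hx, hxu⟩ := not_subset.1 h2
      obtain ⟨y, hy, hyx⟩ := pair_through hb hx
      obtain ⟨A, hA, hA2⟩ := exists_subset_card_eq (s := Sa) (n := 2) (by omega)
      refine ⟨A, {x, y}, hA, hA2, ?_, card_pair hyx.symm, ?_⟩
      · intro w hw
        rw [mem_insert, mem_singleton] at hw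
        rcases hw with rfl | rfl
        · exact hx
        · exact hy
      · refine le_trans (card_le_card (t := insert y A) ?_) ?_
        · intro w hw
          rw [mem_inter] at hw
          obtain ⟨h5, h6⟩ := hw
          simp only [mem_union, mem_insert, mem_singleton] at h6 ⊢
          rcases h6 with h6 | h6 | h6
          · exact Or.inr h6
          · exact absurd (h6 ▸ h5) hxu
          · exact Or.inl h6
        · refine le_trans (card_insert_le _ _) ?_
          omega
  · obtain ⟨x, hx, hxu⟩ := not_subset.1 h1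
    obtain ⟨y, hy, hyx⟩ := pair_through ha hx
    obtain ⟨B, hB, hB2⟩ := exists_subset_card_eq (s := Sb) (n := 2) (by omega)
    refine ⟨{x, y}, B, ?_, card_pair hyx.symm, hB, hB2, ?_⟩
    · intro w hw
      rw [mem_insert, mem_singleton] at hw
      rcases hw with rfl | rfl
      · exact hx
      · exact hy
    · refine le_trans (card_le_card (t := insert y B) ?_) ?_
      · intro w hw
        rw [mem_inter] at hw
        obtain ⟨h5, h6⟩ := hw
        simp only [mem_union, mem_insert, mem_singleton] at h6 ⊢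
        rcases h6 with (h6 | h6) | h6
        · exact absurd (h6 ▸ h5) hxu
        · exact Or.inl h6
        · exact Or.inr h6
      · refine le_trans (card_insert_le _ _) ?_
        omega

theorem three_sets {La Lb Lu : Finset (Fin 7)} (ha : 3 ≤ La.card) (hb : 3 ≤ Lb.card)
    (hu : 5 ≤ Lu.card) : ∃ A B C : Finset (Fin 7), A ⊆ La ∧ A.card = 2 ∧ B ⊆ Lb ∧ B.card = 2 ∧
      C ⊆ Lu ∧ C.card = 2 ∧ Disjoint C A ∧ Disjoint C B := by
  obtain ⟨Sa, hSa, hSa3⟩ := exists_subset_card_eq ha
  obtain ⟨Sb, hSb, hSb3⟩ := exists_subset_card_eq hb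
  obtain ⟨Su, hSu, hSu5⟩ := exists_subset_card_eq hu
  obtain ⟨A, B, hA, hA2, hB, hB2, hAB⟩ := two_sets hSa3 hSb3 hSu5
  have h1 : 2 ≤ (Su \ (A ∪ B)).card := by
    have := card_sdiff_add_card_inter Su (A ∪ B)
    omega
  obtain ⟨C, hC, hC2⟩ := exists_subset_card_eq h1
  refine ⟨A, B, C, hA.trans hSa, hA2, hB.trans hSb, hB2, fun x hx => hSu (mem_sdiff.1 (hC hx)).1,
    hC2, ?_, ?_⟩
  · rw [Finset.disjoint_left]
    intro x hx hxA
    exact (mem_sdiff.1 (hC hx)).2 (mem_union_left _ hxA)
  · rw [Finset.disjoint_left]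
    intro x hx hxB
    exact (mem_sdiff.1 (hC hx)).2 (mem_union_right _ hxB)

end PathAux

open PathAux

theorem min_deg (hm : Min G W) {v : V} (hv : v ∈ W) : 3 ≤ (nb G W v).card := by
  by_contra hlt
  push Not at hlt
  obtain ⟨φ, h2, hd⟩ := hm.col (W.erase v) (erase_ssubset hv)
  have h3 : (nb G (W.erase v) v).card ≤ 2 := by
    have : nb G (W.erase v) v ⊆ nb G W v := fun x hx =>
      mem_nb.2 ⟨mem_of_mem_erase (mem_nb.1 hx).1, (mem_nb.1 hx).2⟩
    have := card_le_card this
    omega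
  have h4 := free_card (G := G) (W := W.erase v) h2 h3
  obtain ⟨A, hA, hA2⟩ := exists_subset_card_eq (n := 2) (le_trans (by norm_num) h4)
  refine hm.not_col ⟨Function.update φ v A, fun w hw => ?_, fun x hx y hy hxy => ?_⟩
  · by_cases h : w = v
    · rw [h, Function.update_self, hA2]
    · rw [Function.update_of_ne h]
      exact h2 w (mem_erase.2 ⟨h, hw⟩)
  · by_cases h5 : x = v
    · have h6 : y ≠ v := fun h => hxy.ne (h5.trans h.symm)
      rw [h5, Function.update_self, Function.update_of_ne h6]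
      exact dis_of_free hA (mem_erase.2 ⟨h6, hy⟩) (h5 ▸ hxy)
    · by_cases h6 : y = v
      · rw [h6, Function.update_self, Function.update_of_ne h5]
        exact (dis_of_free hA (mem_erase.2 ⟨h5, hx⟩) (h6 ▸ hxy.symm)).symm
      · rw [Function.update_of_ne h5, Function.update_of_ne h6]
        exact hd x (mem_erase.2 ⟨h5, hx⟩) y (mem_erase.2 ⟨h6, hy⟩) hxy

theorem c1 (hm : Min G W) {u a b : V} (hu : u ∈ W) (ha : a ∈ nb G W u) (hb : b ∈ nb G W u)
    (hab : a ≠ b) (hn : ¬ G.Adj a b) (du : (nb G W u).card = 3) (da : (nb G W a).card = 3)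
    (db : (nb G W b).card = 3) : False := by
  obtain ⟨haW, hua⟩ := mem_nb.1 ha
  obtain ⟨hbW, hub⟩ := mem_nb.1 hb
  set W' : Finset V := W \ {u, a, b} with hW'
  have hmem : ∀ {x : V}, x ∈ W' ↔ x ∈ W ∧ x ≠ u ∧ x ≠ a ∧ x ≠ b := by
    intro x
    rw [hW', mem_sdiff, mem_insert, mem_insert, mem_singleton]
    tauto
  have hsub : W' ⊂ W := by
    refine ⟨sdiff_subset, fun h => ?_⟩
    exact (hmem.1 (h hu)).2.1 rfl
  obtain ⟨φ, h2, hd⟩ := hm.col W' hsub
  have ka : (nb G W' a).card ≤ 2 := by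
    have h1 : nb G W' a ⊆ (nb G W a).erase u := fun x hx => by
      obtain ⟨h3, h4⟩ := mem_nb.1 hx
      exact mem_erase.2 ⟨(hmem.1 h3).2.1, mem_nb.2 ⟨(hmem.1 h3).1, h4⟩⟩
    have h3 := card_le_card h1
    rw [card_erase_of_mem (mem_nb.2 ⟨hu, hua.symm⟩), da] at h3
    exact h3
  have kb : (nb G W' b).card ≤ 2 := by
    have h1 : nb G W' b ⊆ (nb G W b).erase u := fun x hx => by
      obtain ⟨h3, h4⟩ := mem_nb.1 hx
      exact mem_erase.2 ⟨(hmem.1 h3).2.1, mem_nb.2 ⟨(hmem.1 h3).1, h4⟩⟩
    have h3 := card_le_card h1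
    rw [card_erase_of_mem (mem_nb.2 ⟨hu, hub.symm⟩), db] at h3
    exact h3
  have ku : (nb G W' u).card ≤ 1 := by
    have h1 : nb G W' u ⊆ ((nb G W u).erase a).erase b := fun x hx => by
      obtain ⟨h3, h4⟩ := mem_nb.1 hx
      exact mem_erase.2 ⟨(hmem.1 h3).2.2.2, mem_erase.2 ⟨(hmem.1 h3).2.2.1,
        mem_nb.2 ⟨(hmem.1 h3).1, h4⟩⟩⟩
    have h3 := card_le_card h1
    rw [card_erase_of_mem (mem_erase.2 ⟨hab.symm, hb⟩), card_erase_of_mem ha, du] at h3
    exact h3
  obtain ⟨A, B, C, hA, hA2, hB, hB2, hC, hC2, hCA, hCB⟩ :=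
    three_sets (free_card (G := G) h2 ka) (free_card (G := G) h2 kb) (free_card (G := G) h2 ku)
  have hau : a ≠ u := hua.ne.symm
  have hbu : b ≠ u := hub.ne.symm
  set ψ : V → Finset (Fin 7) := fun x => if x = u then C else if x = a then A else
    if x = b then B else φ x with hψ
  have pu : ψ u = C := by simp [hψ]
  have pa : ψ a = A := by simp [hψ, hau]
  have pb : ψ b = B := by simp [hψ, hbu, hab.symm]
  have po : ∀ {x : V}, x ∈ W' → ψ x = φ x := by
    intro x hx
    obtain ⟨-, h3, h4, h5⟩ := hmem.1 hx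
    simp [hψ, h3, h4, h5]
  have cases4 : ∀ {x : V}, x ∈ W → x = u ∨ x = a ∨ x = b ∨ x ∈ W' := by
    intro x hx
    by_cases h3 : x = u
    · exact Or.inl h3
    by_cases h4 : x = a
    · exact Or.inr (Or.inl h4)
    by_cases h5 : x = b
    · exact Or.inr (Or.inr (Or.inl h5))
    exact Or.inr (Or.inr (Or.inr (hmem.2 ⟨hx, h3, h4, h5⟩)))
  refine hm.not_col ⟨ψ, fun w hw => ?_, fun x hx y hy hxy => ?_⟩
  · rcases cases4 hw with rfl | rfl | rfl | h
    · rw [pu, hC2]
    · rw [pa, hA2]
    · rw [pb, hB2]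
    · rw [po h]
      exact h2 w h
  · rcases cases4 hx with h3 | h3 | h3 | h3 <;> rcases cases4 hy with h4 | h4 | h4 | h4
    · exact absurd (h3.trans h4.symm) hxy.ne
    · rw [h3, h4, pu, pa]
      exact hCA
    · rw [h3, h4, pu, pb]
      exact hCB
    · rw [h3, pu, po h4]
      exact dis_of_free hC h4 (h3 ▸ hxy)
    · rw [h3, h4, pu, pa]
      exact hCA.symm
    · exact absurd (h3.trans h4.symm) hxy.ne
    · exact absurd (h3 ▸ h4 ▸ hxy) hn
    · rw [h3, pa, po h4]
      exact dis_of_free hA h4 (h3 ▸ hxy)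
    · rw [h3, h4, pu, pb]
      exact hCB.symm
    · exact absurd (h3 ▸ h4 ▸ hxy.symm) hn
    · exact absurd (h3.trans h4.symm) hxy.ne
    · rw [h3, pb, po h4]
      exact dis_of_free hB h4 (h3 ▸ hxy)
    · rw [h4, pu, po h3]
      exact (dis_of_free hC h3 (h4 ▸ hxy.symm)).symm
    · rw [h4, pa, po h3]
      exact (dis_of_free hA h3 (h4 ▸ hxy.symm)).symm
    · rw [h4, pb, po h3]
      exact (dis_of_free hB h3 (h4 ▸ hxy.symm)).symm
    · rw [po h3, po h4]
      exact hd x h3 y h4 hxy

end Pool.Agent.Lib.SVT
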