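import Pool.Agent.Lib.SVT.Defs

/-!
# SVT.Pend: pendant parts

`Pend G W x P k`: whatever the colours outside, at most `k` pairs are forbidden at `x` by the part
`P` hanging at `x`.
-/

set_option autoImplicit false
set_option linter.unusedSectionVars false

namespace Pool.Agent.Lib.SVT

open Finset

variable {V : Type*} [Fintype V] [DecidableEq V]

def Pend (G : SimpleGraph V) (W : Finset V) (x : V) (P : Finset V) (k : ℕ) : Prop :=
  ∀ φ : V → Finset (Fin 7), (∀ u, (φ u).card = 2) →
    ∃ B : Finset (Finset (Fin 7)), B.card ≤ k ∧ ∀ X : Finset (Fin 7), X.card = 2 → X ∉ B →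
      ∃ ψ : V → Finset (Fin 7), (∀ v ∈ P, (ψ v).card = 2) ∧
        (∀ u ∈ P, ∀ v ∈ P, G.Adj u v → Disjoint (ψ u) (ψ v)) ∧
        (∀ v ∈ P, G.Adj x v → Disjoint X (ψ v)) ∧
        ∀ v ∈ P, ∀ u ∈ W, u ∉ P → u ≠ x → G.Adj u v → Disjoint (φ u) (ψ v)

variable {G : SimpleGraph V} {W : Finset V} {x : V}

/-- A 3-vertex `v` next to `x`: with `L` = three of the colours not used by the two other
neighbours of `v`, only the three pairs inside `L` are forbidden at `x`. -/
theorem pend_one {v : V} (hx : x ∈ W) (hxv : G.Adj x v) (hd : (nb G W v).card = 3) :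
    Pend G W x {v} 3 := by
  classical
  intro φ hφ
  have hxm : x ∈ nb G W v := mem_nb.mpr ⟨hx, hxv.symm⟩
  have hce : ((nb G W v).erase x).card = 2 := by rw [card_erase_of_mem hxm, hd]
  set U := ((nb G W v).erase x).biUnion φ with hU
  have hUc : U.card ≤ 4 := by
    refine (card_biUnion_le).trans ?_
    rw [sum_congr rfl (fun u _ => hφ u), sum_const, hce]
    norm_num
  have hUc' : 3 ≤ Uᶜ.card := by
    rw [card_compl, Fintype.card_fin]
    omega
  obtain ⟨L, hLU, hL3⟩ := exists_subset_card_eq hUc'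
  refine ⟨L.powersetCard 2, ?_, ?_⟩
  · rw [card_powersetCard, hL3]
    decide
  intro X hX hXB
  have h1 : 2 ≤ (L \ X).card := by
    by_contra hcon
    have h2 : (L \ X).card + (L ∩ X).card = L.card := card_sdiff_add_card_inter L X
    have h3 : 2 ≤ (L ∩ X).card := by omega
    have h4 : L ∩ X = X := eq_of_subset_of_card_le inter_subset_right (by omega)
    apply hXB
    rw [mem_powersetCard]
    exact ⟨by rw [← h4]; exact inter_subset_left, hX⟩
  obtain ⟨Y, hYL, hY2⟩ := exists_subset_card_eq h1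
  refine ⟨fun _ => Y, fun _ _ => hY2, ?_, ?_, ?_⟩
  · intro u hu w hw huw
    rw [mem_singleton] at hu hw
    subst hu
    subst hw
    exact absurd huw (G.loopless.irrefl _)
  · intro w _ _
    rw [disjoint_left]
    intro a haX haY
    exact (mem_sdiff.mp (hYL haY)).2 haX
  · intro w hw u huW hu hux huw
    rw [mem_singleton] at hw hu
    subst hw
    rw [disjoint_left]
    intro a haφ haY
    have h5 : a ∈ L := (mem_sdiff.mp (hYL haY)).1
    have h6 : a ∈ Uᶜ := hLU h5
    rw [mem_compl] at h6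
    apply h6
    rw [hU, mem_biUnion]
    exact ⟨u, mem_erase.mpr ⟨hux, mem_nb.mpr ⟨huW, huw.symm⟩⟩, haφ⟩

theorem pend_union {P P' : Finset V} {k k' : ℕ} (h : Pend G W x P k) (h' : Pend G W x P' k')
    (hdis : Disjoint P P') (hne : ∀ u ∈ P, ∀ v ∈ P', ¬ G.Adj u v) :
    Pend G W x (P ∪ P') (k + k') := by
  classical
  intro φ hφ
  obtain ⟨B, hB, hBX⟩ := h φ hφ
  obtain ⟨B', hB', hBX'⟩ := h' φ hφ
  refine ⟨B ∪ B', (card_union_le _ _).trans (Nat.add_le_add hB hB'), ?_⟩
  intro X hX hXB
  rw [mem_union, not_or] at hXB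
  obtain ⟨ψ, h1, h2, h3, h4⟩ := hBX X hX hXB.1
  obtain ⟨ψ', h1', h2', h3', h4'⟩ := hBX' X hX hXB.2
  have hnot : ∀ v ∈ P', v ∉ P := fun v hv hv' => disjoint_left.mp hdis hv' hv
  refine ⟨fun v => if v ∈ P then ψ v else ψ' v, ?_, ?_, ?_, ?_⟩
  · intro v hv
    dsimp only
    rcases mem_union.mp hv with hv | hv
    · rw [if_pos hv]; exact h1 v hv
    · rw [if_neg (hnot v hv)]; exact h1' v hv
  · intro u hu v hv huv
    dsimp only
    rcases mem_union.mp hu with hu | hu <;> rcases mem_union.mp hv with hv | hv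
    · rw [if_pos hu, if_pos hv]; exact h2 u hu v hv huv
    · exact absurd huv (hne u hu v hv)
    · exact absurd huv.symm (hne v hv u hu)
    · rw [if_neg (hnot u hu), if_neg (hnot v hv)]; exact h2' u hu v hv huv
  · intro v hv hxv
    dsimp only
    rcases mem_union.mp hv with hv | hv
    · rw [if_pos hv]; exact h3 v hv hxv
    · rw [if_neg (hnot v hv)]; exact h3' v hv hxv
  · intro v hv u huW hu hux huv
    rw [mem_union, not_or] at hu
    dsimp only
    rcases mem_union.mp hv with hv | hv
    · rw [if_pos hv]; exact h4 v hv u huW hu.1 hux huv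
    · rw [if_neg (hnot v hv)]; exact h4' v hv u huW hu.2 hux huv

/-- colour `W \ (P ∪ {x})` by minimality; `x` has at most one neighbour there, so at least 10 pairs
are possible at `x`, and at most 9 are forbidden by `P`. -/
theorem star (hm : Min G W) {P : Finset V} {k : ℕ} (hxW : x ∈ W) (hP : P ⊆ W) (hxP : x ∉ P)
    (hpend : Pend G W x P k) (hk : k ≤ 9) (hout : (nb G W x \ P).card ≤ 1) : False := by
  classical
  have hsub : W \ insert x P ⊂ W := by
    refine ⟨sdiff_subset, fun hsup => ?_⟩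
    have := hsup hxW
    rw [mem_sdiff] at this
    exact this.2 (mem_insert_self x P)
  obtain ⟨φ0, hc0, hd0⟩ := hm.col _ hsub
  set φ : V → Finset (Fin 7) := fun v => if v ∈ W \ insert x P then φ0 v else {0, 1} with hφdef
  have hφ : ∀ u, (φ u).card = 2 := by
    intro u
    rw [hφdef]
    dsimp only
    split_ifs with h
    · exact hc0 u h
    · decide
  obtain ⟨B, hB, hBX⟩ := hpend φ hφ
  set F := (nb G W x \ P).biUnion φ with hF
  have hFc : F.card ≤ 2 := by
    refine (card_biUnion_le).trans ?_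
    rw [sum_congr rfl (fun u _ => hφ u), sum_const, smul_eq_mul]
    omega
  have hFc' : 5 ≤ Fᶜ.card := by
    rw [card_compl, Fintype.card_fin]
    omega
  have h10 : B.card < (Fᶜ.powersetCard 2).card := by
    rw [card_powersetCard]
    have : Nat.choose 5 2 ≤ Nat.choose Fᶜ.card 2 := Nat.choose_le_choose 2 hFc'
    have h5 : Nat.choose 5 2 = 10 := by decide
    omega
  obtain ⟨X, hXF, hXB⟩ := exists_mem_notMem_of_card_lt_card h10
  rw [mem_powersetCard] at hXF
  obtain ⟨ψ, h1, h2, h3, h4⟩ := hBX X hXF.2 hXB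
  have hxout : ∀ v ∈ W, v ∉ P → v ≠ x → G.Adj x v → Disjoint X (φ v) := by
    intro v hvW hvP _ hxv
    rw [disjoint_left]
    intro a haX haφ
    have := hXF.1 haX
    rw [mem_compl] at this
    apply this
    rw [hF, mem_biUnion]
    exact ⟨v, mem_sdiff.mpr ⟨mem_nb.mpr ⟨hvW, hxv⟩, hvP⟩, haφ⟩
  have hout' : ∀ v ∈ W, v ∉ P → v ≠ x → v ∈ W \ insert x P := by
    intro v hvW hvP hvx
    rw [mem_sdiff, mem_insert, not_or]
    exact ⟨hvW, hvx, hvP⟩
  apply hm.not_col
  refine ⟨fun v => if v = x then X else if v ∈ P then ψ v else φ v, ?_, ?_⟩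
  · intro v hvW
    dsimp only
    by_cases hvx : v = x
    · rw [if_pos hvx]; exact hXF.2
    · rw [if_neg hvx]
      by_cases hvP : v ∈ P
      · rw [if_pos hvP]; exact h1 v hvP
      · rw [if_neg hvP]; exact hφ v
  · intro u huW v hvW huv
    dsimp only
    by_cases hux : u = x <;> by_cases hvx : v = x
    · subst hux; subst hvx
      exact absurd huv (G.loopless.irrefl _)
    · subst hux
      rw [if_pos rfl, if_neg hvx]
      by_cases hvP : v ∈ P
      · rw [if_pos hvP]; exact h3 v hvP huv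
      · rw [if_neg hvP]; exact hxout v hvW hvP hvx huv
    · subst hvx
      rw [if_neg hux, if_pos rfl]
      by_cases huP : u ∈ P
      · rw [if_pos huP]; exact (h3 u huP huv.symm).symm
      · rw [if_neg huP]; exact (hxout u huW huP hux huv.symm).symm
    · rw [if_neg hux, if_neg hvx]
      by_cases huP : u ∈ P <;> by_cases hvP : v ∈ P
      · rw [if_pos huP, if_pos hvP]; exact h2 u huP v hvP huv
      · rw [if_pos huP, if_neg hvP]
        exact (h4 u huP v hvW hvP hvx huv.symm).symm
      · rw [if_neg huP, if_pos hvP]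
        exact h4 v hvP u huW huP hux huv
      · rw [if_neg huP, if_neg hvP]
        have hu' := hout' u huW huP hux
        have hv' := hout' v hvW hvP hvx
        have e1 : φ u = φ0 u := by rw [hφdef]; dsimp only; rw [if_pos hu']
        have e2 : φ v = φ0 v := by rw [hφdef]; dsimp only; rw [if_pos hv']
        rw [e1, e2]
        exact hd0 u hu' v hv' huv

end Pool.Agent.Lib.SVT
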