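import Pool.Agent.Lib.SVT.Pend

/-!
# SVT.PendB: the pendant part of a bad triangle

`x` in a triangle `x v y`, `d(v) = 3` with third neighbour `z`, `d(z) = 3`, `d(y) = 4`: at most 6
pairs are forbidden at `x`.

Plan.  `nb v = {x, y, z}`; let `Y` be three of the colours not used by the two neighbours of `y`
other than `x, v`, and `Z` three of the colours not used by the two neighbours of `z` other than
`v`.  (`z` is adjacent neither to `x` nor to `y`.)
If `Y ∩ Z ≠ ∅` let `B` be the pairs inside `Y` (3 pairs): for `X` not inside `Y` choose a pair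
`Py ⊆ Y \ X` such that `X ∪ Py` meets `Z` - possible: if `|Y ∩ X| = 1` then `X ∪ Py ⊇ Y`, if
`Y ∩ X = ∅` take `Py` through a point of `Y ∩ Z` -.
If `Y ∩ Z = ∅` let `B` be the pairs inside the 4-set `univ \ Z ⊇ Y` (6 pairs): then `X ∩ Z ≠ ∅` or ...
in fact `X ∉ B` means `X ∩ Z ≠ ∅`, so `|X ∩ Y| ≤ 1` and any `Py ⊆ Y \ X` works.
Then a pair `Pz ⊆ Z` which meets `X ∪ Py`; so `|X ∪ Py ∪ Pz| ≤ 5` and a pair `Pv` outside is left
for `v`.  (A `decide` over all `Y Z X` is also possible: 35 * 35 * 21 cases.)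
-/

set_option autoImplicit false
set_option linter.unusedSectionVars false

namespace Pool.Agent.Lib.SVT

open Finset

variable {V : Type*} [Fintype V] [DecidableEq V] {G : SimpleGraph V} {W : Finset V} {x : V}

namespace PendBAux

/-- a pair inside `Z` through a given point -/
theorem pair_through {Z : Finset (Fin 7)} (hZ : 2 ≤ Z.card) {q : Fin 7} (hq : q ∈ Z) :
    ∃ P : Finset (Fin 7), P ⊆ Z ∧ P.card = 2 ∧ q ∈ P := by
  obtain ⟨P, h1, h2, h3⟩ := exists_subsuperset_card_eq (s := {q}) (t := Z) (n := 2)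
    (singleton_subset_iff.2 hq) (by simp) hZ
  exact ⟨P, h2, h3, singleton_subset_iff.1 h1⟩

/-- the last step: `X ∪ Py` meets `Z` -/
theorem fin_step {X Py Z : Finset (Fin 7)} (hX : X.card = 2) (hPy : Py.card = 2)
    (hZ : Z.card = 3) (h : ∃ q, q ∈ X ∪ Py ∧ q ∈ Z) :
    ∃ Pz Pv : Finset (Fin 7), Pz.card = 2 ∧ Pv.card = 2 ∧ Pz ⊆ Z ∧ Disjoint X Pv ∧
      Disjoint Py Pv ∧ Disjoint Pz Pv := by
  obtain ⟨q, hq1, hq2⟩ := h
  obtain ⟨Pz, hz1, hz2, hz3⟩ := pair_through (Z := Z) (by omega) hq2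
  have h1 : ((X ∪ Py) ∪ Pz).card ≤ 5 := by
    have e1 := card_union_add_card_inter (X ∪ Py) Pz
    have e2 := card_union_le X Py
    have e3 : 1 ≤ ((X ∪ Py) ∩ Pz).card := card_pos.2 ⟨q, mem_inter.2 ⟨hq1, hz3⟩⟩
    omega
  have h2 : 2 ≤ (((X ∪ Py) ∪ Pz)ᶜ).card := by
    rw [card_compl, Fintype.card_fin]
    omega
  obtain ⟨Pv, hv1, hv2⟩ := exists_subset_card_eq h2
  have h3 : Disjoint ((X ∪ Py) ∪ Pz) Pv :=
    disjoint_of_subset_right hv1 disjoint_compl_right
  refine ⟨Pz, Pv, hz2, hv2, hz1, ?_, ?_, ?_⟩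
  · exact disjoint_of_subset_left (subset_union_left.trans subset_union_left) h3
  · exact disjoint_of_subset_left (subset_union_right.trans subset_union_left) h3
  · exact disjoint_of_subset_left subset_union_right h3

theorem comb {Y Z : Finset (Fin 7)} (hY : Y.card = 3) (hZ : Z.card = 3) :
    ∃ B : Finset (Finset (Fin 7)), B.card ≤ 6 ∧ ∀ X : Finset (Fin 7), X.card = 2 → X ∉ B →
      ∃ Py Pz Pv : Finset (Fin 7), Py.card = 2 ∧ Pz.card = 2 ∧ Pv.card = 2 ∧ Py ⊆ Y ∧ Pz ⊆ Z ∧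
        Disjoint X Py ∧ Disjoint X Pv ∧ Disjoint Py Pv ∧ Disjoint Pz Pv := by
  by_cases hYZ : ∃ p, p ∈ Y ∧ p ∈ Z
  · obtain ⟨p, hp1, hp2⟩ := hYZ
    refine ⟨Y.powersetCard 2, ?_, ?_⟩
    · rw [card_powersetCard, hY]
      decide
    · intro X hX hXB
      have hXY : ¬ X ⊆ Y := fun h => hXB (mem_powersetCard.2 ⟨h, hX⟩)
      have hne : (X \ Y).Nonempty := sdiff_nonempty.2 hXY
      have hc1 := card_pos.2 hne
      have hc2 := card_sdiff_add_card_inter X Y
      have hc3 := card_sdiff_add_card_inter Y X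
      rw [inter_comm Y X] at hc3
      by_cases h0 : p ∈ X
      · -- `X` meets `Z` in `p`
        have hc4 : 2 ≤ (Y \ X).card := by omega
        obtain ⟨Py, hy1, hy2⟩ := exists_subset_card_eq hc4
        obtain ⟨Pz, Pv, a1, a2, a3, a4, a5, a6⟩ :=
          fin_step hX hy2 hZ ⟨p, mem_union_left _ h0, hp2⟩
        refine ⟨Py, Pz, Pv, hy2, a1, a2, hy1.trans sdiff_subset, a3, ?_, a4, a5, a6⟩
        exact disjoint_of_subset_right hy1 disjoint_sdiff
      · have hc4 : 2 ≤ (Y \ X).card := by omega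
        obtain ⟨Py, hy1, hy2, hy3⟩ := pair_through hc4 (q := p) (mem_sdiff.2 ⟨hp1, h0⟩)
        obtain ⟨Pz, Pv, a1, a2, a3, a4, a5, a6⟩ :=
          fin_step hX hy2 hZ ⟨p, mem_union_right _ hy3, hp2⟩
        refine ⟨Py, Pz, Pv, hy2, a1, a2, hy1.trans sdiff_subset, a3, ?_, a4, a5, a6⟩
        exact disjoint_of_subset_right hy1 disjoint_sdiff
  · push Not at hYZ
    refine ⟨(Zᶜ).powersetCard 2, ?_, ?_⟩
    · rw [card_powersetCard, card_compl, hZ, Fintype.card_fin]
      decide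
    · intro X hX hXB
      have hXZ : ¬ X ⊆ Zᶜ := fun h => hXB (mem_powersetCard.2 ⟨h, hX⟩)
      obtain ⟨q, hq1, hq2⟩ := not_subset.1 hXZ
      have hqZ : q ∈ Z := by
        by_contra h
        exact hq2 (mem_compl.2 h)
      have hqY : q ∉ Y := fun h => hYZ q h hqZ
      have hc1 : 0 < (X \ Y).card := card_pos.2 ⟨q, mem_sdiff.2 ⟨hq1, hqY⟩⟩
      have hc2 := card_sdiff_add_card_inter X Y
      have hc3 := card_sdiff_add_card_inter Y X
      rw [inter_comm Y X] at hc3
      have hc4 : 2 ≤ (Y \ X).card := by omega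
      obtain ⟨Py, hy1, hy2⟩ := exists_subset_card_eq hc4
      obtain ⟨Pz, Pv, a1, a2, a3, a4, a5, a6⟩ :=
        fin_step hX hy2 hZ ⟨q, mem_union_left _ hq1, hqZ⟩
      refine ⟨Py, Pz, Pv, hy2, a1, a2, hy1.trans sdiff_subset, a3, ?_, a4, a5, a6⟩
      exact disjoint_of_subset_right hy1 disjoint_sdiff

/-- three colours not used by two vertices -/
theorem free {S : Finset V} (hS : S.card ≤ 2) (φ : V → Finset (Fin 7))
    (hφ : ∀ u, (φ u).card = 2) :
    ∃ Y : Finset (Fin 7), Y.card = 3 ∧ ∀ u ∈ S, Disjoint (φ u) Y := by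
  have h1 : (S.biUnion φ).card ≤ 4 := by
    refine card_biUnion_le.trans ?_
    calc ∑ u ∈ S, (φ u).card = ∑ _u ∈ S, 2 := sum_congr rfl fun u _ => hφ u
      _ = S.card * 2 := by simp
      _ ≤ 4 := by omega
  have h2 : 3 ≤ ((S.biUnion φ)ᶜ).card := by
    rw [card_compl, Fintype.card_fin]
    omega
  obtain ⟨Y, hY1, hY2⟩ := exists_subset_card_eq h2
  refine ⟨Y, hY2, fun u hu => ?_⟩
  have h3 : Disjoint (S.biUnion φ) Y := disjoint_of_subset_right hY1 disjoint_compl_right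
  exact disjoint_of_subset_left (subset_biUnion_of_mem φ hu) h3

end PendBAux

open PendBAux in
theorem pend_b {v y z : V} (hx : x ∈ W) (hv : v ∈ W) (hy : y ∈ W) (hz : z ∈ W)
    (hxv : G.Adj x v) (hxy : G.Adj x y) (hvy : G.Adj v y) (hvz : G.Adj v z)
    (hzx : z ≠ x) (hzy : z ≠ y) (hzx' : ¬ G.Adj z x) (hzy' : ¬ G.Adj z y)
    (hdv : (nb G W v).card = 3) (hdy : (nb G W y).card = 4) (hdz : (nb G W z).card = 3) :
    Pend G W x {v, y, z} 6 := by
  classical
  have hxv' := hxv.ne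
  have hxy2 := hxy.ne
  have hvy2 := hvy.ne
  have hvz2 := hvz.ne
  -- the neighbourhood of `v`
  have hnv : nb G W v = {x, y, z} := by
    symm
    apply eq_of_subset_of_card_le
    · intro u hu
      simp only [mem_insert, mem_singleton] at hu
      rcases hu with rfl | rfl | rfl
      · exact mem_nb.2 ⟨hx, hxv.symm⟩
      · exact mem_nb.2 ⟨hy, hvy⟩
      · exact mem_nb.2 ⟨hz, hvz⟩
    · rw [hdv]
      have : ({x, y, z} : Finset V).card = 3 :=
        card_eq_three.2 ⟨x, y, z, hxy2, hzx.symm, hzy.symm, rfl⟩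
      omega
  have hSy : ((nb G W y).erase x |>.erase v).card ≤ 2 := by
    have h1 : x ∈ nb G W y := mem_nb.2 ⟨hx, hxy.symm⟩
    have h2 : v ∈ (nb G W y).erase x := mem_erase.2 ⟨hxv'.symm, mem_nb.2 ⟨hv, hvy.symm⟩⟩
    rw [card_erase_of_mem h2, card_erase_of_mem h1, hdy]
  have hSz : ((nb G W z).erase v).card ≤ 2 := by
    have h2 : v ∈ nb G W z := mem_nb.2 ⟨hv, hvz.symm⟩
    rw [card_erase_of_mem h2, hdz]
  intro φ hφ
  obtain ⟨Y, hY1, hY2⟩ := free hSy φ hφ
  obtain ⟨Z, hZ1, hZ2⟩ := free hSz φ hφ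
  obtain ⟨B, hB1, hB2⟩ := comb hY1 hZ1
  refine ⟨B, hB1, fun X hX hXB => ?_⟩
  obtain ⟨Py, Pz, Pv, c1, c2, c3, c4, c5, c6, c7, c8, c9⟩ := hB2 X hX hXB
  have ev : (fun w => if w = v then Pv else if w = y then Py else Pz : V → Finset (Fin 7)) v
      = Pv := by simp
  have ey : (fun w => if w = v then Pv else if w = y then Py else Pz : V → Finset (Fin 7)) y
      = Py := by simp [hvy2.symm]
  have ez : (fun w => if w = v then Pv else if w = y then Py else Pz : V → Finset (Fin 7)) z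
      = Pz := by simp [hvz2.symm, hzy]
  generalize (fun w => if w = v then Pv else if w = y then Py else Pz : V → Finset (Fin 7)) = ψ
    at ev ey ez
  refine ⟨ψ, ?_, ?_, ?_, ?_⟩
  · intro w hw
    simp only [mem_insert, mem_singleton] at hw
    rcases hw with rfl | rfl | rfl
    · rw [ev]; exact c3
    · rw [ey]; exact c1
    · rw [ez]; exact c2
  · intro u hu w hw huw
    simp only [mem_insert, mem_singleton] at hu hw
    rcases hu with rfl | rfl | rfl <;> rcases hw with rfl | rfl | rfl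
    · exact absurd huw (G.loopless.irrefl _)
    · rw [ev, ey]; exact c8.symm
    · rw [ev, ez]; exact c9.symm
    · rw [ev, ey]; exact c8
    · exact absurd huw (G.loopless.irrefl _)
    · exact absurd huw.symm hzy'
    · rw [ev, ez]; exact c9
    · exact absurd huw hzy'
    · exact absurd huw (G.loopless.irrefl _)
  · intro w hw hxw
    simp only [mem_insert, mem_singleton] at hw
    rcases hw with rfl | rfl | rfl
    · rw [ev]; exact c7
    · rw [ey]; exact c6
    · exact absurd hxw.symm hzx'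
  · intro w hw u hu huP hux huw
    simp only [mem_insert, mem_singleton, not_or] at hw huP
    obtain ⟨h1, h2, h3⟩ := huP
    rcases hw with rfl | rfl | rfl
    · exfalso
      have h4 : u ∈ nb G W w := mem_nb.2 ⟨hu, huw.symm⟩
      rw [hnv] at h4
      simp only [mem_insert, mem_singleton] at h4
      rcases h4 with h4 | h4 | h4
      · exact hux h4
      · exact h2 h4
      · exact h3 h4
    · rw [ey]
      refine disjoint_of_subset_right c4 (hY2 u ?_)
      exact mem_erase.2 ⟨h1, mem_erase.2 ⟨hux, mem_nb.2 ⟨hu, huw.symm⟩⟩⟩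
    · rw [ez]
      refine disjoint_of_subset_right c5 (hZ2 u ?_)
      exact mem_erase.2 ⟨h1, mem_nb.2 ⟨hu, huw.symm⟩⟩

end Pool.Agent.Lib.SVT
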