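import Pool.Agent.Lib.SVT.Pend

/-!
# SVT.TriC: a triangle whose three vertices have all their other neighbours in pendant parts

Plan.  Let `H` be the union of `{x 0, x 1, x 2}` and the three parts; colour `W \ H` by
minimality, extended by an arbitrary pair on `H`; let `B i` be the sets of at most 6 pairs given by
`Pend`.  There are 630 ordered triples of pairwise disjoint pairs of `Fin 7`, and each pair is the
`i`-th member of exactly 30 of them (`decide`), so at most `3 * 6 * 30 = 540` triples have some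
member `i` in `B i`: choose a good triple for `x 0, x 1, x 2` and then colour the parts.
No vertex `x i` has a neighbour outside `H`.
-/

set_option autoImplicit false
set_option linter.unusedSectionVars false

namespace Pool.Agent.Lib.SVT

open Finset

variable {V : Type*} [Fintype V] [DecidableEq V] {G : SimpleGraph V} {W : Finset V}

namespace TriAux

/-- 21 triples of pairwise disjoint pairs: `Q j a`, `j = 0, 1, 2` -/
def Q (j : Fin 3) (a : Fin 7) : Finset (Fin 7) :=
  if j = 0 then {a, a + 1} else if j = 1 then {a + 2, a + 4} else {a + 3, a + 6}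

theorem Q_card : ∀ j a, (Q j a).card = 2 := by decide

theorem Q_dis : ∀ i j a, i ≠ j → Disjoint (Q i a) (Q j a) := by decide

theorem Q_inj : ∀ j a j' a', Q j a = Q j' a' → j = j' ∧ a = a' := by decide

end TriAux

/-- avoiding three sets of at most 6 pairs -/
theorem exists_triple (B : Fin 3 → Finset (Finset (Fin 7))) (hB : ∀ i, (B i).card ≤ 6) :
    ∃ X : Fin 3 → Finset (Fin 7), (∀ i, (X i).card = 2 ∧ X i ∉ B i) ∧
      ∀ i j, i ≠ j → Disjoint (X i) (X j) := by
  classical
  by_contra hcon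
  have hbad : ∀ p : Fin 3 × Fin 7, ∃ i, TriAux.Q (i + p.1) p.2 ∈ B i := by
    intro p
    by_contra h
    push Not at h
    refine hcon ⟨fun i => TriAux.Q (i + p.1) p.2, fun i => ⟨TriAux.Q_card _ _, h i⟩, ?_⟩
    intro i j hij
    refine TriAux.Q_dis _ _ _ fun h2 => hij ?_
    exact add_right_cancel h2
  set N : Fin 3 → Finset (Fin 3 × Fin 7) :=
    fun i => univ.filter fun p => TriAux.Q (i + p.1) p.2 ∈ B i with hN
  have h1 : (univ : Finset (Fin 3 × Fin 7)) ⊆ univ.biUnion N := by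
    intro p _
    obtain ⟨i, hi⟩ := hbad p
    exact mem_biUnion.2 ⟨i, mem_univ _, mem_filter.2 ⟨mem_univ _, hi⟩⟩
  have h2 : ∀ i, (N i).card ≤ 6 := by
    intro i
    refine le_trans (card_le_card_of_injOn (fun p => TriAux.Q (i + p.1) p.2) ?_ ?_) (hB i)
    · intro p hp
      exact (mem_filter.1 hp).2
    · intro p _ p' _ hpp
      obtain ⟨h3, h4⟩ := TriAux.Q_inj _ _ _ _ hpp
      exact Prod.ext (add_left_cancel h3) h4
  have h3 := card_le_card h1
  have h4 : (univ.biUnion N).card ≤ 18 := by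
    refine card_biUnion_le.trans ?_
    calc ∑ i, (N i).card ≤ ∑ _i : Fin 3, 6 := sum_le_sum fun i _ => h2 i
      _ = 18 := by simp
  have h5 : (univ : Finset (Fin 3 × Fin 7)).card = 21 := by simp
  omega

theorem centre (hm : Min G W) (x : Fin 3 → V) (P : Fin 3 → Finset V)
    (hx : ∀ i, x i ∈ W) (hinj : Function.Injective x) (hP : ∀ i, P i ⊆ W)
    (hxP : ∀ i j, x i ∉ P j) (hdis : ∀ i j, i ≠ j → Disjoint (P i) (P j))
    (hPP : ∀ i j, i ≠ j → ∀ u ∈ P i, ∀ v ∈ P j, ¬ G.Adj u v)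
    (hxx : ∀ i j, i ≠ j → ∀ v ∈ P j, ¬ G.Adj (x i) v)
    (hnb : ∀ i, ∀ u ∈ nb G W (x i), u ∈ P i ∨ ∃ j, u = x j)
    (hpend : ∀ i, Pend G W (x i) (P i) 6) : False := by
  classical
  set H : Finset V := univ.image x ∪ univ.biUnion P with hH
  have hxH : ∀ i, x i ∈ H := fun i => mem_union_left _ (mem_image_of_mem _ (mem_univ i))
  have hPH : ∀ i, ∀ v ∈ P i, v ∈ H := fun i v hv =>
    mem_union_right _ (mem_biUnion.2 ⟨i, mem_univ i, hv⟩)
  have hHc : ∀ v, v ∈ H → (∃ i, v ∈ P i) ∨ ∃ i, v = x i := by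
    intro v hv
    rcases mem_union.1 hv with h | h
    · obtain ⟨i, _, rfl⟩ := mem_image.1 h
      exact Or.inr ⟨i, rfl⟩
    · obtain ⟨i, _, h⟩ := mem_biUnion.1 h
      exact Or.inl ⟨i, h⟩
  obtain ⟨φ0, hφ1, hφ2⟩ := hm.col (W \ H) (by
    refine Finset.ssubset_iff_subset_ne.2 ⟨sdiff_subset, fun h => ?_⟩
    have h0 : x 0 ∈ W \ H := by
      rw [h]
      exact hx 0
    exact (mem_sdiff.1 h0).2 (hxH 0))
  set φ : V → Finset (Fin 7) := fun v => if v ∈ W \ H then φ0 v else {0, 1} with hφ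
  have hφc : ∀ u, (φ u).card = 2 := by
    intro u
    by_cases h : u ∈ W \ H
    · simp only [hφ, h, if_true]
      exact hφ1 u h
    · simp only [hφ, h, if_false]
      decide
  choose B hB1 hB2 using fun i => hpend i φ hφc
  obtain ⟨X, hX1, hX2⟩ := exists_triple B hB1
  choose ψ hψ1 hψ2 hψ3 hψ4 using fun i => hB2 i (X i) (hX1 i).1 (hX1 i).2
  set χ : V → Finset (Fin 7) := fun v =>
    if h : ∃ i, v ∈ P i then ψ h.choose v else if h : ∃ i, v = x i then X h.choose else φ v with hχ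
  have hχP : ∀ i, ∀ v ∈ P i, χ v = ψ i v := by
    intro i v hv
    have h : ∃ i, v ∈ P i := ⟨i, hv⟩
    have hi : h.choose = i := by
      by_contra hne
      exact disjoint_left.1 (hdis _ _ hne) h.choose_spec hv
    simp only [hχ]
    rw [dif_pos h, hi]
  have hχx : ∀ i, χ (x i) = X i := by
    intro i
    have h1 : ¬ ∃ j, x i ∈ P j := fun ⟨j, hj⟩ => hxP i j hj
    have h2 : ∃ j, x i = x j := ⟨i, rfl⟩
    have hi : h2.choose = i := (hinj h2.choose_spec).symm
    simp only [hχ]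
    rw [dif_neg h1, dif_pos h2, hi]
  have hχo : ∀ v, v ∉ H → χ v = φ v := by
    intro v hv
    have h1 : ¬ ∃ j, v ∈ P j := fun ⟨j, hj⟩ => hv (hPH j v hj)
    have h2 : ¬ ∃ j, v = x j := fun ⟨j, hj⟩ => hv (hj ▸ hxH j)
    simp only [hχ]
    rw [dif_neg h1, dif_neg h2]
  have hφo : ∀ v ∈ W, v ∉ H → φ v = φ0 v := by
    intro v hv hvH
    have h : v ∈ W \ H := mem_sdiff.2 ⟨hv, hvH⟩
    simp only [hφ, h, if_true]
  -- edges at the parts
  have e1 : ∀ i, ∀ u ∈ P i, ∀ v ∈ W, G.Adj u v → Disjoint (χ u) (χ v) := by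
    intro i u hu v hv huv
    rw [hχP i u hu]
    by_cases hvH : v ∈ H
    · rcases hHc v hvH with ⟨j, hj⟩ | ⟨j, rfl⟩
      · by_cases hij : i = j
        · subst hij
          rw [hχP i v hj]
          exact hψ2 i u hu v hj huv
        · exact absurd huv (hPP i j hij u hu v hj)
      · by_cases hij : j = i
        · subst hij
          rw [hχx j]
          exact (hψ3 j u hu huv.symm).symm
        · exact absurd huv.symm (hxx j i hij u hu)
    · rw [hχo v hvH]
      exact (hψ4 i u hu v hv (fun h => hvH (hPH i v h)) (fun h => hvH (h ▸ hxH i)) huv.symm).symm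
  -- edges at the triangle
  have e2 : ∀ i, ∀ v ∈ W, G.Adj (x i) v → Disjoint (χ (x i)) (χ v) := by
    intro i v hv huv
    rcases hnb i v (mem_nb.2 ⟨hv, huv⟩) with h | ⟨j, rfl⟩
    · exact (e1 i v h (x i) (hx i) huv.symm).symm
    · rw [hχx, hχx]
      exact hX2 i j fun h => G.loopless.irrefl _ (h ▸ huv)
  refine hm.not_col ⟨χ, ?_, ?_⟩
  · intro v hv
    by_cases hvH : v ∈ H
    · rcases hHc v hvH with ⟨j, hj⟩ | ⟨j, rfl⟩
      · rw [hχP j v hj]
        exact hψ1 j v hj
      · rw [hχx]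
        exact (hX1 j).1
    · rw [hχo v hvH]
      exact hφc v
  · intro u hu v hv huv
    by_cases huH : u ∈ H
    · rcases hHc u huH with ⟨j, hj⟩ | ⟨j, rfl⟩
      · exact e1 j u hj v hv huv
      · exact e2 j v hv huv
    · by_cases hvH : v ∈ H
      · rcases hHc v hvH with ⟨j, hj⟩ | ⟨j, rfl⟩
        · exact (e1 j v hj u hu huv.symm).symm
        · exact (e2 j u hu huv.symm).symm
      · rw [hχo u huH, hχo v hvH, hφo u hu huH, hφo v hv hvH]
        exact hφ2 u (mem_sdiff.2 ⟨hu, huH⟩) v (mem_sdiff.2 ⟨hv, hvH⟩) huv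

end Pool.Agent.Lib.SVT
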