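import Pool.Agent.Lib.SVT.PendB
import Pool.Agent.Lib.SVT.TriC
import Pool.Agent.Lib.SVT.PathC

/-!
# SVT.Red: the reducible configurations

`c2`: three `pend_one` (3 + 3 + 3 = 9) and `star`.  `r6`: `pend_b` (6) and `pend_one` (3) and `star`;
the missing adjacencies follow from `NoC4` (for example `z ~ x` would give the 4-cycle `x z v y`).
`c678`: `centre` with the parts `{v, y, z}` (`pend_b`) or `{n, n'}` (two `pend_one`, 3 + 3 = 6);
coincidences and adjacencies between different parts would give cycles of length 4, 5 or 6: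
let the triangle be `x 0, x 1, x 2`; `y1 ~ y2`: 4-cycle; `v1 ~ v2`: 4-cycle; `z1 ~ y2`, `z1 ~ v2`:
`v2` has only the neighbours `x2, y2, z2`, ...; `z1 ~ y2`: 5-cycle `z1 v1 x1 x2 y2`; `z1 = z2`: 5-cycle;
`z1 ~ z2`: 6-cycle `z1 v1 x1 x2 v2 z2`; `n1 ~ z2`: 5-cycle; `n1 = z2`: 4-cycle, and so on.
-/

set_option autoImplicit false
set_option linter.unusedSectionVars false

namespace Pool.Agent.Lib.SVT

open Finset

variable {V : Type*} [Fintype V] [DecidableEq V] {G : SimpleGraph V} {W : Finset V}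

theorem c2 (hm : Min G W) {x n1 n2 n3 : V} (hx : x ∈ W) (hd : (nb G W x).card = 4)
    (h1 : n1 ∈ nb G W x) (h2 : n2 ∈ nb G W x) (h3 : n3 ∈ nb G W x)
    (h12 : n1 ≠ n2) (h13 : n1 ≠ n3) (h23 : n2 ≠ n3)
    (a12 : ¬ G.Adj n1 n2) (a13 : ¬ G.Adj n1 n3) (a23 : ¬ G.Adj n2 n3)
    (d1 : (nb G W n1).card = 3) (d2 : (nb G W n2).card = 3) (d3 : (nb G W n3).card = 3) :
    False := by
  have m1 := mem_nb.1 h1
  have m2 := mem_nb.1 h2
  have m3 := mem_nb.1 h3
  have p1 := pend_one hx m1.2 d1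
  have p2 := pend_one hx m2.2 d2
  have p3 := pend_one hx m3.2 d3
  have p12 : Pend G W x ({n1} ∪ {n2}) (3 + 3) := by
    refine pend_union p1 p2 ?_ ?_
    · rw [disjoint_singleton]
      exact h12
    · intro u hu v hv
      rw [mem_singleton] at hu hv
      rw [hu, hv]
      exact a12
  have p123 : Pend G W x ({n1} ∪ {n2} ∪ {n3}) (3 + 3 + 3) := by
    refine pend_union p12 p3 ?_ ?_
    · rw [disjoint_singleton_right]
      simp only [mem_union, mem_singleton]
      rintro (h | h)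
      · exact h13 h.symm
      · exact h23 h.symm
    · intro u hu v hv
      rw [mem_singleton] at hv
      rw [mem_union, mem_singleton, mem_singleton] at hu
      rw [hv]
      rcases hu with rfl | rfl
      · exact a13
      · exact a23
  refine star hm hx ?_ ?_ p123 (by norm_num) ?_
  · intro u hu
    simp only [mem_union, mem_singleton] at hu
    rcases hu with (rfl | rfl) | rfl
    · exact m1.1
    · exact m2.1
    · exact m3.1
  · intro hu
    simp only [mem_union, mem_singleton] at hu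
    rcases hu with (rfl | rfl) | rfl
    · exact G.irrefl m1.2
    · exact G.irrefl m2.2
    · exact G.irrefl m3.2
  · have hsub : ({n1} ∪ {n2} ∪ {n3} : Finset V) ⊆ nb G W x := by
      intro u hu
      simp only [mem_union, mem_singleton] at hu
      rcases hu with (rfl | rfl) | rfl
      · exact h1
      · exact h2
      · exact h3
    have hc : ({n1} ∪ {n2} ∪ {n3} : Finset V).card = 3 := by
      have : ({n1} ∪ {n2} ∪ {n3} : Finset V) = {n1, n2, n3} := by
        ext u
        simp only [mem_union, mem_singleton, mem_insert, or_assoc]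
      rw [this]
      exact card_eq_three.2 ⟨n1, n2, n3, h12, h13, h23, rfl⟩
    rw [card_sdiff_of_subset hsub, hd, hc]

theorem r6 (hm : Min G W) (h4 : NoC4 G) {x v y v' z : V} (hx : x ∈ W)
    (hdx : (nb G W x).card = 4) (hv : v ∈ nb G W x) (hy : y ∈ nb G W x) (hvy : G.Adj v y)
    (hv' : v' ∈ nb G W x) (hvv : v' ≠ v) (hvy' : v' ≠ y) (hz : z ∈ nb G W v) (hzx : z ≠ x)
    (hzy : z ≠ y) (dv : (nb G W v).card = 3) (dy : (nb G W y).card = 4)
    (dz : (nb G W z).card = 3) (dv' : (nb G W v').card = 3) : False := by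
  have mv := mem_nb.1 hv
  have my := mem_nb.1 hy
  have mv' := mem_nb.1 hv'
  have mz := mem_nb.1 hz
  have hxv : x ≠ v := mv.2.ne
  have hxy : x ≠ y := my.2.ne
  have hvney : v ≠ y := hvy.ne
  have hzx' : ¬ G.Adj z x := fun h => h4 x z v y hxv hzy h.symm mz.2.symm hvy my.2.symm
  have hzy' : ¬ G.Adj z y := fun h => h4 x v z y hzx.symm hvney mv.2 mz.2 h my.2.symm
  have hv'z : v' ≠ z := by
    rintro rfl
    exact hzx' mv'.2.symm
  have pb := pend_b hx mv.1 my.1 mz.1 mv.2 my.2 hvy mz.2 hzx hzy hzx' hzy' dv dy dz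
  have p1 := pend_one hx mv'.2 dv'
  have p : Pend G W x ({v, y, z} ∪ {v'}) (6 + 3) := by
    refine pend_union pb p1 ?_ ?_
    · rw [disjoint_singleton_right]
      simp only [mem_insert, mem_singleton]
      rintro (h | h | h)
      · exact hvv h
      · exact hvy' h
      · exact hv'z h
    · intro u hu w hw
      rw [mem_singleton] at hw
      rw [mem_insert, mem_insert, mem_singleton] at hu
      rw [hw]
      rcases hu with rfl | rfl | rfl
      · exact fun h => h4 x v' u y hxv hvy' mv'.2 h.symm hvy my.2.symm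
      · exact fun h => h4 x v' u v hxy hvv mv'.2 h.symm hvy.symm mv.2.symm
      · exact fun h => h4 x v' u v hzx.symm hvv mv'.2 h.symm mz.2.symm mv.2.symm
  refine star hm hx ?_ ?_ p (by norm_num) ?_
  · intro u hu
    simp only [mem_union, mem_insert, mem_singleton] at hu
    rcases hu with (rfl | rfl | rfl) | rfl
    · exact mv.1
    · exact my.1
    · exact mz.1
    · exact mv'.1
  · intro hu
    simp only [mem_union, mem_insert, mem_singleton] at hu
    rcases hu with (h | h | h) | h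
    · exact hxv h
    · exact hxy h
    · exact hzx h.symm
    · exact mv'.2.ne h
  · have hsub : nb G W x \ ({v, y, z} ∪ {v'}) ⊆ nb G W x \ {v, y, v'} := by
      apply sdiff_subset_sdiff (Finset.Subset.refl _)
      intro u hu
      simp only [mem_insert, mem_singleton] at hu
      simp only [mem_union, mem_insert, mem_singleton]
      tauto
    have hsub2 : ({v, y, v'} : Finset V) ⊆ nb G W x := by
      intro u hu
      simp only [mem_insert, mem_singleton] at hu
      rcases hu with rfl | rfl | rfl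
      · exact hv
      · exact hy
      · exact hv'
    have hc : ({v, y, v'} : Finset V).card = 3 :=
      card_eq_three.2 ⟨v, y, v', hvney, hvv.symm, hvy'.symm, rfl⟩
    refine (card_le_card hsub).trans ?_
    rw [card_sdiff_of_subset hsub2, hdx, hc]

/-- `x` lies in a bad triangle besides `T` -/
def BadAt (G : SimpleGraph V) (W T : Finset V) (x : V) : Prop :=
  ∃ v y z, v ∈ nb G W x ∧ y ∈ nb G W x ∧ v ∉ T ∧ y ∉ T ∧ G.Adj v y ∧ z ∈ nb G W v ∧ z ≠ x ∧
    z ≠ y ∧ (nb G W v).card = 3 ∧ (nb G W y).card = 4 ∧ (nb G W z).card = 3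

/-- `x` has two nonadjacent 3-neighbours outside `T` -/
def TwoAt (G : SimpleGraph V) (W T : Finset V) (x : V) : Prop :=
  ∃ n n', n ∈ nb G W x ∧ n' ∈ nb G W x ∧ n ∉ T ∧ n' ∉ T ∧ n ≠ n' ∧ ¬ G.Adj n n' ∧
    (nb G W n).card = 3 ∧ (nb G W n').card = 3

/-- neighbours of `x` outside `T` -/
def L1 (G : SimpleGraph V) (T : Finset V) (x u : V) : Prop := G.Adj x u ∧ u ∉ T

/-- neighbours of neighbours of `x` outside `T` -/
def L2 (G : SimpleGraph V) (T : Finset V) (x u : V) : Prop :=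
  ∃ v, L1 G T x v ∧ G.Adj v u ∧ u ≠ x

/-- a third vertex of a triangle -/
theorem third {T : Finset V} (hT : T ∈ tris G W) {x x' : V} (hx : x ∈ T) (hx' : x' ∈ T)
    (hne : x ≠ x') : ∃ w ∈ T, w ≠ x ∧ w ≠ x' ∧ G.Adj x w ∧ G.Adj w x' := by
  obtain ⟨-, hc, hadj⟩ := mem_tris.1 hT
  have h1 : 0 < ((T.erase x).erase x').card := by
    rw [card_erase_of_mem (mem_erase.2 ⟨hne.symm, hx'⟩), card_erase_of_mem hx, hc]
    norm_num
  obtain ⟨w, hw⟩ := card_pos.1 h1
  rw [mem_erase, mem_erase] at hw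
  exact ⟨w, hw.2.2, hw.2.1, hw.1, hadj x hx w hw.2.2 (Ne.symm hw.2.1), hadj w hw.2.2 x' hx' hw.1⟩

theorem f1 (h4 : NoC4 G) {T : Finset V} (hT : T ∈ tris G W) {x x' u : V} (hx : x ∈ T)
    (hx' : x' ∈ T) (hne : x ≠ x') (h : L1 G T x u) (h' : L1 G T x' u) : False := by
  obtain ⟨w, hw, hwx, hwx', a1, a2⟩ := third hT hx hx' hne
  have huw : u ≠ w := by
    rintro rfl
    exact h.2 hw
  exact h4 u x w x' huw hne h.1.symm a1 a2 h'.1

theorem f2 (h4 : NoC4 G) {T : Finset V} (hT : T ∈ tris G W) {x u : V} (hx : x ∈ T)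
    (h : L2 G T x u) : u ∉ T := by
  obtain ⟨v, hv, hvu, hux⟩ := h
  intro hu
  exact f1 h4 hT hx hu hux.symm hv ⟨hvu.symm, hv.2⟩

theorem f3 (h4 : NoC4 G) {T : Finset V} (hT : T ∈ tris G W) {x x' u : V} (hx : x ∈ T)
    (hx' : x' ∈ T) (hne : x ≠ x') (h : L2 G T x u) (h' : L1 G T x' u) : False := by
  obtain ⟨v, hv, hvu, hux⟩ := h
  have hadj := (mem_tris.1 hT).2.2 x' hx' x hx hne.symm
  have hvx' : v ≠ x' := by
    rintro rfl
    exact hv.2 hx'
  exact h4 x v u x' hux.symm hvx' hv.1 hvu h'.1.symm hadj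

theorem f4 (h4 : NoC4 G) (h5 : NoC5 G) {T : Finset V} (hT : T ∈ tris G W) {x x' u : V}
    (hx : x ∈ T) (hx' : x' ∈ T) (hne : x ≠ x') (h : L2 G T x u) (h' : L2 G T x' u) : False := by
  have huT : u ∉ T := f2 h4 hT hx h
  obtain ⟨v, hv, hvu, hux⟩ := h
  obtain ⟨v', hv', hvu', hux'⟩ := h'
  have hadj := (mem_tris.1 hT).2.2 x hx x' hx' hne
  have e1 : v ≠ x' := by
    rintro rfl
    exact hv.2 hx'
  have e2 : x ≠ v' := by
    rintro rfl
    exact hv'.2 hx
  have e3 : v ≠ v' := by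
    rintro rfl
    exact f1 h4 hT hx hx' hne hv hv'
  exact h5 u v x x' v' hux hux' e1 e3 e2 hvu.symm hv.1.symm hadj hv'.1 hvu'

theorem f5 (h4 : NoC4 G) {T : Finset V} (hT : T ∈ tris G W) {x x' u u' : V} (hx : x ∈ T)
    (hx' : x' ∈ T) (hne : x ≠ x') (h : L1 G T x u) (h' : L1 G T x' u') (ha : G.Adj u u') :
    False := by
  have hadj := (mem_tris.1 hT).2.2 x' hx' x hx hne.symm
  have e1 : x ≠ u' := by
    rintro rfl
    exact h'.2 hx
  have e2 : u ≠ x' := by
    rintro rfl
    exact h.2 hx'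
  exact h4 x u u' x' e1 e2 h.1 ha h'.1.symm hadj

theorem f6 (h4 : NoC4 G) (h5 : NoC5 G) {T : Finset V} (hT : T ∈ tris G W) {x x' u u' : V}
    (hx : x ∈ T) (hx' : x' ∈ T) (hne : x ≠ x') (h : L2 G T x u) (h' : L1 G T x' u')
    (ha : G.Adj u u') : False := by
  have huT : u ∉ T := f2 h4 hT hx h
  obtain ⟨v, hv, hvu, hux⟩ := h
  have hadj := (mem_tris.1 hT).2.2 x hx x' hx' hne
  have e1 : v ≠ x' := by
    rintro rfl
    exact hv.2 hx'
  have e2 : x ≠ u' := by
    rintro rfl
    exact h'.2 hx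
  have e3 : v ≠ u' := by
    rintro rfl
    exact f1 h4 hT hx hx' hne hv h'
  have e4 : u ≠ x' := by
    rintro rfl
    exact huT hx'
  exact h5 u v x x' u' hux e4 e1 e3 e2 hvu.symm hv.1.symm hadj h'.1 ha.symm

theorem f7 (h4 : NoC4 G) (h6 : NoC6 G) {T : Finset V} (hT : T ∈ tris G W) {x x' u u' : V}
    (hx : x ∈ T) (hx' : x' ∈ T) (hne : x ≠ x') (h : L2 G T x u) (h' : L2 G T x' u')
    (ha : G.Adj u u') : False := by
  have huT : u ∉ T := f2 h4 hT hx h
  have huT' : u' ∉ T := f2 h4 hT hx' h'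
  have hL := h
  have hL' := h'
  obtain ⟨v, hv, hvu, hux⟩ := h
  obtain ⟨v', hv', hvu', hux'⟩ := h'
  have hadj := (mem_tris.1 hT).2.2 x hx x' hx' hne
  have e1 : v ≠ x' := fun e => hv.2 (e ▸ hx')
  have e2 : x ≠ v' := fun e => hv'.2 (e ▸ hx)
  have e3 : v ≠ v' := by
    rintro rfl
    exact f1 h4 hT hx hx' hne hv hv'
  have e4 : u ≠ x' := fun e => huT (e ▸ hx')
  have e5 : x ≠ u' := fun e => huT' (e ▸ hx)
  have e6 : u ≠ v' := by
    rintro rfl
    exact f3 h4 hT hx hx' hne hL hv'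
  have e7 : v ≠ u' := by
    rintro rfl
    exact f3 h4 hT hx' hx hne.symm hL' hv
  refine h6 u v x x' v' u' ?_ hvu.symm hv.1.symm hadj hv'.1 hvu' ha.symm
  simp only [List.nodup_cons, List.mem_cons, List.not_mem_nil, or_false, not_or, List.nodup_nil,
    and_true, not_false_eq_true]
  exact ⟨⟨hvu.ne.symm, hux, e4, e6, ha.ne⟩, ⟨hv.1.ne.symm, e1, e3, e7⟩, ⟨hne, e2, e5⟩,
    ⟨hv'.1.ne, hux'.symm⟩, hvu'.ne⟩

/-- the pendant part at a vertex of `T` -/
theorem part (h4 : NoC4 G) {T : Finset V} (hT : T ∈ tris G W) {x : V} (hx : x ∈ T)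
    (hd : (nb G W x).card = 4) (h : BadAt G W T x ∨ TwoAt G W T x) :
    ∃ P : Finset V, P ⊆ W ∧ Pend G W x P 6 ∧ (∀ u ∈ P, L1 G T x u ∨ L2 G T x u) ∧
      ∀ u ∈ nb G W x, u ∈ P ∨ u ∈ T := by
  obtain ⟨hTW, hT3, hadj⟩ := mem_tris.1 hT
  have hxW : x ∈ W := hTW hx
  have key : ∀ a b : V, a ∈ nb G W x → b ∈ nb G W x → a ∉ T → b ∉ T → a ≠ b →
      ∀ u ∈ nb G W x, u = a ∨ u = b ∨ u ∈ T := by
    intro a b ha hb haT hbT hab u hu
    have hsub : T.erase x ∪ {a, b} ⊆ nb G W x := by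
      intro w hw
      rw [mem_union, mem_erase, mem_insert, mem_singleton] at hw
      rcases hw with ⟨h1, h2⟩ | rfl | rfl
      · exact mem_nb.2 ⟨hTW h2, hadj x hx w h2 h1.symm⟩
      · exact ha
      · exact hb
    have hdis : Disjoint (T.erase x) {a, b} := by
      rw [disjoint_left]
      intro w hw hw2
      rw [mem_insert, mem_singleton] at hw2
      rcases hw2 with rfl | rfl
      · exact haT (mem_of_mem_erase hw)
      · exact hbT (mem_of_mem_erase hw)
    have hcard : (T.erase x ∪ {a, b}).card = 4 := by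
      rw [card_union_of_disjoint hdis, card_erase_of_mem hx, hT3, card_pair hab]
    have heq := eq_of_subset_of_card_le hsub (by rw [hcard, hd])
    rw [← heq, mem_union, mem_insert, mem_singleton] at hu
    rcases hu with h1 | h1 | h1
    · exact Or.inr (Or.inr (mem_of_mem_erase h1))
    · exact Or.inl h1
    · exact Or.inr (Or.inl h1)
  rcases h with ⟨v, y, z, hv, hy, hvT, hyT, hvy, hz, hzx, hzy, dv, dy, dz⟩ |
    ⟨n, n', hn, hn', hnT, hnT', hnn, hna, dn, dn'⟩
  · have mv := mem_nb.1 hv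
    have my := mem_nb.1 hy
    have mz := mem_nb.1 hz
    have hxv : x ≠ v := mv.2.ne
    have hvney : v ≠ y := hvy.ne
    have hzx' : ¬ G.Adj z x := fun h => h4 x z v y hxv hzy h.symm mz.2.symm hvy my.2.symm
    have hzy' : ¬ G.Adj z y := fun h => h4 x v z y hzx.symm hvney mv.2 mz.2 h my.2.symm
    refine ⟨{v, y, z}, ?_, pend_b hxW mv.1 my.1 mz.1 mv.2 my.2 hvy mz.2 hzx hzy hzx' hzy' dv dy dz,
      ?_, ?_⟩
    · intro u hu
      rw [mem_insert, mem_insert, mem_singleton] at hu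
      rcases hu with rfl | rfl | rfl
      · exact mv.1
      · exact my.1
      · exact mz.1
    · intro u hu
      rw [mem_insert, mem_insert, mem_singleton] at hu
      rcases hu with rfl | rfl | rfl
      · exact Or.inl ⟨mv.2, hvT⟩
      · exact Or.inl ⟨my.2, hyT⟩
      · exact Or.inr ⟨v, ⟨mv.2, hvT⟩, mz.2, hzx⟩
    · intro u hu
      rw [mem_insert, mem_insert, mem_singleton]
      rcases key v y hv hy hvT hyT hvney u hu with h1 | h1 | h1
      · exact Or.inl (Or.inl h1)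
      · exact Or.inl (Or.inr (Or.inl h1))
      · exact Or.inr h1
  · have mn := mem_nb.1 hn
    have mn' := mem_nb.1 hn'
    refine ⟨{n} ∪ {n'}, ?_, ?_, ?_, ?_⟩
    · intro u hu
      rw [mem_union, mem_singleton, mem_singleton] at hu
      rcases hu with rfl | rfl
      · exact mn.1
      · exact mn'.1
    · have h33 : Pend G W x ({n} ∪ {n'}) (3 + 3) := by
        refine pend_union (pend_one hxW mn.2 dn) (pend_one hxW mn'.2 dn') ?_ ?_
        · rw [disjoint_singleton]
          exact hnn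
        · intro u hu w hw
          rw [mem_singleton] at hu hw
          rw [hu, hw]
          exact hna
      exact h33
    · intro u hu
      rw [mem_union, mem_singleton, mem_singleton] at hu
      rcases hu with rfl | rfl
      · exact Or.inl ⟨mn.2, hnT⟩
      · exact Or.inl ⟨mn'.2, hnT'⟩
    · intro u hu
      rw [mem_union, mem_singleton, mem_singleton]
      rcases key n n' hn hn' hnT hnT' hnn u hu with h1 | h1 | h1
      · exact Or.inl (Or.inl h1)
      · exact Or.inl (Or.inr h1)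
      · exact Or.inr h1

theorem c678 (hm : Min G W) (h4 : NoC4 G) (h5 : NoC5 G) (h6 : NoC6 G) {T : Finset V}
    (hT : T ∈ tris G W) (hall : ∀ x ∈ T, (nb G W x).card = 4 ∧ (BadAt G W T x ∨ TwoAt G W T x)) :
    False := by
  obtain ⟨hTW, hT3, hadj⟩ := mem_tris.1 hT
  have hparts : ∀ x : T, ∃ P : Finset V, P ⊆ W ∧ Pend G W x P 6 ∧
      (∀ u ∈ P, L1 G T x u ∨ L2 G T x u) ∧ ∀ u ∈ nb G W x, u ∈ P ∨ u ∈ T := fun x =>
    part h4 hT x.2 (hall x x.2).1 (hall x x.2).2
  choose P hPW hPend hPL hPnb using hparts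
  let e : Fin 3 ≃ T := (T.equivFinOfCardEq hT3).symm
  have hinj : Function.Injective (fun i => ((e i : T) : V)) := fun i j hij =>
    e.injective (Subtype.ext hij)
  have hne : ∀ i j, i ≠ j → ((e i : T) : V) ≠ ((e j : T) : V) := fun i j hij h => hij (hinj h)
  have hPT : ∀ j, ∀ u ∈ P (e j), u ∉ T := by
    intro j u hu
    rcases hPL (e j) u hu with h | h
    · exact h.2
    · exact f2 h4 hT (e j).2 h
  refine centre hm (fun i => ((e i : T) : V)) (fun i => P (e i)) (fun i => hTW (e i).2) hinj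
    (fun i => hPW (e i)) ?_ ?_ ?_ ?_ ?_ (fun i => hPend (e i))
  · intro i j h
    exact hPT j _ h (e i).2
  · intro i j hij
    rw [disjoint_left]
    intro u hu hu'
    rcases hPL (e i) u hu with h | h <;> rcases hPL (e j) u hu' with h' | h'
    · exact f1 h4 hT (e i).2 (e j).2 (hne i j hij) h h'
    · exact f3 h4 hT (e j).2 (e i).2 (hne j i hij.symm) h' h
    · exact f3 h4 hT (e i).2 (e j).2 (hne i j hij) h h'
    · exact f4 h4 h5 hT (e i).2 (e j).2 (hne i j hij) h h'
  · intro i j hij u hu v hv ha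
    rcases hPL (e i) u hu with h | h <;> rcases hPL (e j) v hv with h' | h'
    · exact f5 h4 hT (e i).2 (e j).2 (hne i j hij) h h' ha
    · exact f6 h4 h5 hT (e j).2 (e i).2 (hne j i hij.symm) h' h ha.symm
    · exact f6 h4 h5 hT (e i).2 (e j).2 (hne i j hij) h h' ha
    · exact f7 h4 h6 hT (e i).2 (e j).2 (hne i j hij) h h' ha
  · intro i j hij v hv ha
    have hL : L1 G T (e i) v := ⟨ha, hPT j v hv⟩
    rcases hPL (e j) v hv with h' | h'
    · exact f1 h4 hT (e i).2 (e j).2 (hne i j hij) hL h'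
    · exact f3 h4 hT (e j).2 (e i).2 (hne j i hij.symm) h' hL
  · intro i u hu
    rcases hPnb (e i) u hu with h | h
    · exact Or.inl h
    · refine Or.inr ⟨e.symm ⟨u, h⟩, ?_⟩
      simp

end Pool.Agent.Lib.SVT
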